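import Pool.Agent.TConn.Contr

set_option autoImplicit false

open Matrix

namespace Pool.Agent.TConn

variable {m : Type*} [Fintype m] [DecidableEq m]

theorem sym_diag {A : Matrix m m ℝ} (hA : Aᵀ = A) :
    ∃ (V : Matrix m m ℝ) (d : m → ℝ), Vᵀ * V = 1 ∧ V * Vᵀ = 1 ∧ A = V * diagonal d * Vᵀ := by
  have hH : A.IsHermitian := by
    rw [Matrix.IsHermitian, Matrix.conjTranspose_eq_transpose_of_trivial]
    exact hA
  have hsp := hH.spectral_theorem
  set U := hH.eigenvectorUnitary with hU
  set V : Matrix m m ℝ := (U : Matrix m m ℝ) with hV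
  have hV1 : Vᵀ * V = 1 := by
    have := (Matrix.mem_unitaryGroup_iff' (A := V)).1 U.2
    rwa [Matrix.star_eq_conjTranspose, Matrix.conjTranspose_eq_transpose_of_trivial] at this
  have hV2 : V * Vᵀ = 1 := by
    have := (Matrix.mem_unitaryGroup_iff (A := V)).1 U.2
    rwa [Matrix.star_eq_conjTranspose, Matrix.conjTranspose_eq_transpose_of_trivial] at this
  refine ⟨V, hH.eigenvalues, hV1, hV2, ?_⟩
  refine hsp.trans ?_
  rw [Unitary.conjStarAlgAut_apply]
  rw [← Matrix.conjTranspose_eq_transpose_of_trivial V]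
  rfl

/-- normal form of elliptic forms with diagonal symmetric part -/
theorem Ell.diag {S : Matrix m m ℝ} (h : Ell S) :
    ∃ (P O : Matrix m m ℝ) (μ : m → ℝ), IsUnit P ∧ Oᵀ * O = 1 ∧ S = Pᵀ * O * P ∧
      O + Oᵀ = diagonal (fun i => 2 * μ i) := by
  obtain ⟨P, O, hP, hO, hS⟩ := h
  obtain ⟨V, d, hV1, hV2, hsp⟩ := sym_diag (A := O + Oᵀ) (by simp [add_comm])
  refine ⟨Vᵀ * P, Vᵀ * O * V, fun i => d i / 2, ?_, ?_, ?_, ?_⟩
  · apply IsUnit.mul _ hP
    exact IsUnit.of_mul_eq_one V hV1
  · calc (Vᵀ * O * V)ᵀ * (Vᵀ * O * V) = Vᵀ * Oᵀ * (V * Vᵀ) * O * V := by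
          simp only [Matrix.transpose_mul, Matrix.transpose_transpose, Matrix.mul_assoc]
      _ = Vᵀ * (Oᵀ * O) * V := by rw [hV2]; simp only [Matrix.mul_assoc, Matrix.one_mul]
      _ = 1 := by rw [hO, Matrix.mul_one, hV1]
  · calc S = Pᵀ * O * P := hS
      _ = Pᵀ * (V * Vᵀ) * O * (V * Vᵀ) * P := by rw [hV2]; simp
      _ = _ := by simp only [Matrix.transpose_mul, Matrix.transpose_transpose, Matrix.mul_assoc]
  · calc Vᵀ * O * V + (Vᵀ * O * V)ᵀ = Vᵀ * (O + Oᵀ) * V := by
          simp only [Matrix.transpose_mul, Matrix.transpose_transpose, Matrix.mul_assoc,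
            Matrix.mul_add, Matrix.add_mul]
      _ = (Vᵀ * V) * diagonal d * (Vᵀ * V) := by
          rw [hsp]; simp only [Matrix.mul_assoc]
      _ = _ := by
          rw [hV1, Matrix.one_mul, Matrix.mul_one]
          congr 1
          ext i
          ring

/-- the embedding attached to a diagonal form -/
noncomputable def rho (μ : m → ℝ) : (m → ℝ) →ₗ[ℝ] ((m → ℝ) × (m → ℝ)) where
  toFun f := (fun j => √(max (μ j) 0) * f j, fun j => √(max (-μ j) 0) * f j)
  map_add' f g := by
    apply Prod.ext <;> ext j <;> simp <;> ring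
  map_smul' c f := by
    apply Prod.ext <;> ext j <;> simp <;> ring

theorem rho_apply (μ : m → ℝ) (f : m → ℝ) :
    rho μ f = (fun j => √(max (μ j) 0) * f j, fun j => √(max (-μ j) 0) * f j) := rfl

theorem G_rho (μ f g : m → ℝ) : G (rho μ f) (rho μ g) = ∑ j, μ j * f j * g j := by
  rw [rho_apply, rho_apply, G]
  simp only [dotProduct]
  rw [← Finset.sum_sub_distrib]
  apply Finset.sum_congr rfl
  intro j _
  rcases le_total 0 (μ j) with h | h
  · rw [max_eq_left h, max_eq_right (by linarith)]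
    have := Real.mul_self_sqrt h
    simp only [Real.sqrt_zero, zero_mul, sub_zero]
    linear_combination (f j * g j) * this
  · rw [max_eq_right h, max_eq_left (by linarith)]
    have := Real.mul_self_sqrt (show 0 ≤ -μ j by linarith)
    simp only [Real.sqrt_zero, zero_mul, zero_sub]
    linear_combination -(f j * g j) * this

section

variable {n : ℕ}

/-- the vectors attached to an elliptic unitriangular matrix -/
noncomputable def evec (μ : Fin n → ℝ) (P : Matrix (Fin n) (Fin n) ℝ) (k : ℕ) :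
    (Fin n → ℝ) × (Fin n → ℝ) :=
  if h : k < n then rho μ (fun j => P j ⟨k, h⟩) else 0

theorem evec_apply (μ : Fin n → ℝ) (P : Matrix (Fin n) (Fin n) ℝ) (i : Fin n) :
    evec μ P i = rho μ (fun j => P j i) := by
  rw [evec, dif_pos i.2]

theorem sum_evec (μ : Fin n → ℝ) (P : Matrix (Fin n) (Fin n) ℝ) (x : Fin n → ℝ) :
    ∑ j : Fin n, x j • evec μ P j = rho μ (P *ᵥ x) := by
  simp only [evec_apply]
  simp only [← map_smul]
  rw [← map_sum]
  congr 1
  ext i
  simp [Matrix.mulVec, dotProduct, mul_comm]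

theorem G_evec {μ : Fin n → ℝ} {P O S : Matrix (Fin n) (Fin n) ℝ} (hS : S = Pᵀ * O * P)
    (hO : O + Oᵀ = diagonal (fun i => 2 * μ i)) (i j : Fin n) :
    2 * G (evec μ P i) (evec μ P j) = S i j + S j i := by
  rw [evec_apply, evec_apply, G_rho]
  have h1 : S + Sᵀ = Pᵀ * diagonal (fun i => 2 * μ i) * P := by
    rw [← hO, hS]
    simp only [Matrix.transpose_mul, Matrix.transpose_transpose, Matrix.mul_assoc,
            Matrix.mul_add, Matrix.add_mul]
  have h2 := congrFun (congrFun h1 i) j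
  simp only [Matrix.add_apply, Matrix.transpose_apply] at h2
  rw [h2, Matrix.mul_apply, Finset.mul_sum]
  apply Finset.sum_congr rfl
  intro k _
  rw [Matrix.mul_diagonal, Matrix.transpose_apply]
  ring

theorem hinv_evec {μ : Fin n → ℝ} {P O S : Matrix (Fin n) (Fin n) ℝ} (hS : S = Pᵀ * O * P)
    (hP : IsUnit P) (hOO : Oᵀ * O = 1)
    (hO : O + Oᵀ = diagonal (fun i => 2 * μ i)) (hU : Uni S)
    (he : ∀ k < n, G (evec μ P k) (evec μ P k) = 1)
    (hSe : ∀ i j : Fin n, i < j → S i j = 2 * G (evec μ P i) (evec μ P j))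
    (u : Fin n → ℝ) : (chain (evec μ P) n (u, 0)).2 = 0 := by
  have hOO' : O * Oᵀ = 1 := mul_eq_one_comm.1 hOO
  have hPdet : IsUnit P.det := (Matrix.isUnit_iff_isUnit_det _).1 hP
  -- action on `rho f`
  have act : ∀ f : Fin n → ℝ, chain (evec μ P) n (rho μ f) = - rho μ ((O * O) *ᵥ f) := by
    intro f
    have h1 : Sᵀ *ᵥ (P⁻¹ *ᵥ ((O * O) *ᵥ f)) = S *ᵥ (P⁻¹ *ᵥ f) := by
      rw [Matrix.mulVec_mulVec, Matrix.mulVec_mulVec, Matrix.mulVec_mulVec]
      congr 1
      rw [hS]
      calc (Pᵀ * O * P)ᵀ * P⁻¹ * (O * O) = Pᵀ * Oᵀ * (P * P⁻¹) * (O * O) := by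
            simp only [Matrix.transpose_mul, Matrix.transpose_transpose, Matrix.mul_assoc]
        _ = Pᵀ * (Oᵀ * O) * O := by
            rw [Matrix.mul_nonsing_inv _ hPdet, Matrix.mul_one]
            simp only [Matrix.mul_assoc]
        _ = Pᵀ * O * (P * P⁻¹) := by
            rw [hOO, Matrix.mul_nonsing_inv _ hPdet, Matrix.mul_one, Matrix.mul_one]
        _ = _ := by simp only [Matrix.mul_assoc]
    have h2 := (key_chain hU he hSe h1 n le_rfl).1
    rw [sum_evec] at h2
    have h3 : ∑ j : Fin n, (if n ≤ (j : ℕ) then (P⁻¹ *ᵥ f) j else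
        - (P⁻¹ *ᵥ ((O * O) *ᵥ f)) j) • evec μ P j =
        - ∑ j : Fin n, (P⁻¹ *ᵥ ((O * O) *ᵥ f)) j • evec μ P j := by
      rw [← Finset.sum_neg_distrib]
      apply Finset.sum_congr rfl
      intro j _
      rw [if_neg (by omega), neg_smul]
    rw [h3, sum_evec] at h2
    rw [Matrix.mulVec_mulVec, Matrix.mulVec_mulVec, Matrix.mul_nonsing_inv _ hPdet,
      Matrix.one_mulVec, Matrix.one_mulVec] at h2
    exact h2
  -- commutation
  have hcomm : ∀ i j, (O * O) i j * μ j = μ i * (O * O) i j := by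
    have h1 : O * (O + Oᵀ) = (O + Oᵀ) * O := by
      rw [Matrix.mul_add, Matrix.add_mul, hOO, hOO']
    have h2 : (O * O) * (O + Oᵀ) = (O + Oᵀ) * (O * O) := by
      rw [Matrix.mul_assoc, h1, ← Matrix.mul_assoc, h1, Matrix.mul_assoc]
    rw [hO] at h2
    intro i j
    have h3 := congrFun (congrFun h2 i) j
    rw [Matrix.mul_diagonal, Matrix.diagonal_mul] at h3
    linarith
  set f : Fin n → ℝ := fun j => if 0 < μ j then u j / √(μ j) else 0 with hf
  set u0 : Fin n → ℝ := fun j => if 0 < μ j then 0 else u j with hu0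
  have hdec : ((u, 0) : (Fin n → ℝ) × (Fin n → ℝ)) = rho μ f + (u0, 0) := by
    rw [rho_apply]
    apply Prod.ext
    · ext j
      simp only [hf, hu0, Prod.fst_add, Pi.add_apply]
      by_cases h : 0 < μ j
      · rw [if_pos h, if_pos h, max_eq_left h.le]
        have := (Real.sqrt_pos.2 h).ne'
        field_simp
        ring
      · rw [if_neg h, if_neg h]; ring
    · ext j
      simp only [hf, Prod.snd_add, Pi.add_apply, Pi.zero_apply]
      by_cases h : 0 < μ j
      · rw [if_pos h, max_eq_right (by linarith)]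
        simp
      · rw [if_neg h]; ring
  have hfix : ∀ k ≤ n, chain (evec μ P) k (u0, 0) = (u0, 0) := by
    intro k hk
    induction k with
    | zero => rfl
    | succ k ih =>
      rw [chain_succ, ih (by omega), rf_apply]
      have : G (u0, 0) (evec μ P k) = 0 := by
        have h1 := evec_apply μ P ⟨k, by omega⟩
        simp only at h1
        rw [h1, rho_apply]
        simp only [G, dotProduct, Pi.zero_apply, zero_mul, Finset.sum_const_zero, sub_zero]
        apply Finset.sum_eq_zero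
        intro j _
        by_cases h : 0 < μ j
        · simp [hu0, h]
        · rw [max_eq_right (by linarith)]
          simp
      rw [this]
      simp
  rw [hdec, map_add, hfix n le_rfl, act]
  have hsupp : (rho μ ((O * O) *ᵥ f)).2 = 0 := by
    rw [rho_apply]
    ext i
    simp only [Pi.zero_apply]
    by_cases h : 0 < μ i
    · rw [max_eq_right (by linarith)]; simp
    · have : ((O * O) *ᵥ f) i = 0 := by
        rw [Matrix.mulVec, dotProduct]
        apply Finset.sum_eq_zero
        intro j _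
        by_cases hj : 0 < μ j
        · have h1 := hcomm i j
          have h2 : (O * O) i j * (μ j - μ i) = 0 := by linarith
          have h3 : μ j - μ i ≠ 0 := by
            have : μ i ≤ 0 := not_lt.1 h
            intro h4
            linarith
          rw [(mul_eq_zero.1 h2).resolve_right h3, zero_mul]
        · simp [hf, hj]
      rw [this, mul_zero]
  simp [hsupp]

end

section

variable {n : ℕ}

/-- matrix attached to vectors -/
noncomputable def SS (e : ℕ → (m → ℝ) × (m → ℝ)) : Matrix (Fin n) (Fin n) ℝ :=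
  Matrix.of fun i j => if i < j then 2 * G (e i) (e j) else if i = j then 1 else 0

omit [DecidableEq m] in
theorem SS_uni (e : ℕ → (m → ℝ) × (m → ℝ)) : Uni (SS (n := n) e) := by
  constructor
  · intro i j hij
    simp [SS, hij.not_gt, hij.ne']
  · intro i
    simp [SS]

omit [DecidableEq m] in
theorem SS_psd {e : ℕ → (m → ℝ) × (m → ℝ)} (he : ∀ k < n, G (e k) (e k) = 1)
    (h0 : ∀ k < n, (e k).2 = 0) (u : Fin n → ℝ) : 0 ≤ u ⬝ᵥ (SS e : Matrix (Fin n) (Fin n) ℝ) *ᵥ u := by
  set S : Matrix (Fin n) (Fin n) ℝ := SS e with hS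
  have tr : u ⬝ᵥ Sᵀ *ᵥ u = u ⬝ᵥ S *ᵥ u := by
    rw [Matrix.dotProduct_mulVec, Matrix.vecMul_transpose, dotProduct_comm]
  have hG : ∀ i j : Fin n, G (e i) (e j) = (e i).1 ⬝ᵥ (e j).1 := by
    intro i j
    rw [G, h0 i i.2]
    simp
  have h1 : ∀ i j : Fin n, S i j + S j i = 2 * ((e i).1 ⬝ᵥ (e j).1) := by
    intro i j
    rcases lt_trichotomy i j with h | h | h
    · simp [hS, SS, h, h.not_gt, h.ne', hG]
    · subst h
      rw [← hG, he i i.2]
      simp [hS, SS]
      norm_num
    · simp [hS, SS, h, h.not_gt, h.ne', hG, dotProduct_comm]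
  have h2 : u ⬝ᵥ S *ᵥ u + u ⬝ᵥ Sᵀ *ᵥ u = 2 * ((∑ i : Fin n, u i • (e i).1) ⬝ᵥ (∑ j : Fin n, u j • (e j).1)) := by
    rw [← dotProduct_add, ← Matrix.add_mulVec]
    rw [sum_dotProduct, Finset.mul_sum, dotProduct]
    apply Finset.sum_congr rfl
    intro i _
    rw [dotProduct_sum, Finset.mul_sum, Matrix.mulVec, dotProduct, Finset.mul_sum]
    apply Finset.sum_congr rfl
    intro j _
    rw [Matrix.add_apply, Matrix.transpose_apply, h1]
    simp only [smul_dotProduct, dotProduct_smul, smul_eq_mul]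
    ring
  have h3 := dot_self_nonneg (∑ i : Fin n, u i • (e i).1)
  rw [tr] at h2
  linarith

/-- The set of unitriangular matrices with nonnegative symmetric part. -/
def Pset (n : ℕ) : Set (Matrix (Fin n) (Fin n) ℝ) := {S | Uni S ∧ ∀ u, 0 ≤ u ⬝ᵥ S *ᵥ u}

theorem Pset_sub : Pset n ⊆ TSet n := by
  rintro S ⟨h1, h2⟩
  exact mem_TSet_iff.2 ⟨h1, unim_of_psd h1.isUnit h2⟩

theorem Pset_preconn : IsPreconnected (Pset n) := by
  apply Convex.isPreconnected
  rintro S ⟨h1, h2⟩ S' ⟨h1', h2'⟩ a b ha hb hab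
  refine ⟨⟨?_, ?_⟩, ?_⟩
  · intro i j hij
    simp [h1.1 i j hij, h1'.1 i j hij]
  · intro i
    simp [h1.2 i, h1'.2 i, hab]
  · intro u
    rw [Matrix.add_mulVec, Matrix.smul_mulVec, Matrix.smul_mulVec, dotProduct_add,
      dotProduct_smul, dotProduct_smul, smul_eq_mul, smul_eq_mul]
    have := mul_nonneg ha (h2 u)
    have := mul_nonneg hb (h2' u)
    linarith

theorem one_mem_Pset : (1 : Matrix (Fin n) (Fin n) ℝ) ∈ Pset n := by
  refine ⟨⟨?_, ?_⟩, ?_⟩
  · intro i j hij
    exact Matrix.one_apply_ne hij.ne'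
  · intro i
    exact Matrix.one_apply_eq i
  · intro u
    rw [Matrix.one_mulVec]
    exact dot_self_nonneg u

/-- Every elliptic unitriangular matrix is connected to `1` inside `T`. -/
theorem ell_conn {S : Matrix (Fin n) (Fin n) ℝ} (hE : Ell S) (hU : Uni S) :
    S ∈ connectedComponentIn (TSet n) 1 := by
  obtain ⟨P, O, μ, hP, hOO, hS, hO⟩ := hE.diag
  set e := evec μ P with hed
  have hG := G_evec (μ := μ) hS hO
  have he : ∀ k < n, G (e k) (e k) = 1 := by
    intro k hk
    have := hG ⟨k, hk⟩ ⟨k, hk⟩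
    rw [hU.2] at this
    simp only at this
    rw [hed]
    linarith
  have hSe : ∀ i j : Fin n, i < j → S i j = 2 * G (e i) (e j) := by
    intro i j hij
    rw [hG, hU.1 j i hij, add_zero]
  have hinv : ∀ u : Fin n → ℝ, (chain e n (u, 0)).2 = 0 := hinv_evec hS hP hOO hO hU he hSe
  have hSC := SC_phi he
  have hlast : phi e n = 0 := phi_last hinv he
  -- the deformation
  set es : ℝ → ℕ → (Fin n → ℝ) × (Fin n → ℝ) := fun s k =>
    ee (s • phi e k) (s • phi e (k+1)) (al (phi e k) (e k)) with hes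
  have hstep : ∀ k, ∀ s : ℝ, s • phi e (k+1) = s • phi e k +
      vecMulVec (s • ((2 / De (phi e k) (e k)) • be (phi e k) (e k))) (al (phi e k) (e k)) := by
    intro k s
    rw [show phi e (k+1) = nx (phi e k) (e k) from rfl, nx, smul_add]
    congr 1
    ext i j
    simp [vecMulVec_apply, mul_assoc]
  have hα : ∀ k < n, al (phi e k) (e k) ≠ 0 := fun k hk => al_ne (hSC k hk.le) (he k hk)
  have hes1 : ∀ s ∈ Set.Icc (0:ℝ) 1, ∀ k < n, G (es s k) (es s k) = 1 := by
    intro s hs k hk
    exact ee_norm (SC_smul (hSC k hk.le) hs) (SC_smul (hSC (k+1) hk) hs) (hα k hk) (hstep k s)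
  have hcont : ContinuousOn (fun s : ℝ => (SS (es s) : Matrix (Fin n) (Fin n) ℝ))
      (Set.Icc 0 1) := by
    have hc : ∀ k < n, ContinuousOn (fun s => es s k) (Set.Icc 0 1) := by
      intro k hk
      have h1 : phi e (k+1) = phi e k +
        vecMulVec (((2 / De (phi e k) (e k)) • be (phi e k) (e k))) (al (phi e k) (e k)) := rfl
      exact continuousOn_ee (hSC k hk.le) (hSC (k+1) hk) (hα k hk) h1
    refine continuousOn_pi.2 fun i => continuousOn_pi.2 fun j => ?_
    simp only [SS, Matrix.of_apply]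
    by_cases h : i < j
    · simp only [if_pos h]
      exact continuousOn_const.mul (continuousOn_G (hc i i.2) (hc j j.2))
    · simp only [if_neg h]
      exact continuousOn_const
  have hmem : ∀ s ∈ Set.Icc (0:ℝ) 1, (SS (es s) : Matrix (Fin n) (Fin n) ℝ) ∈ TSet n := by
    intro s hs
    rw [mem_TSet_iff]
    refine ⟨SS_uni _, unim_of_chain (SS_uni _) (hes1 s hs) ?_ ?_⟩
    · intro i j hij
      simp [SS, hij]
    · intro u
      have h1 := chain_graph (e := es s) (n := n) (φ := fun k => s • phi e k)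
        (by simp [phi]) (fun k hk u => ee_step (SC_smul (hSC k hk.le) hs)
          (SC_smul (hSC (k+1) hk) hs) (hα k hk) (hstep k s) u) n le_rfl u
      simp only [hlast, smul_zero, Matrix.zero_mulVec] at h1
      exact h1
  have hone : (SS (es 1) : Matrix (Fin n) (Fin n) ℝ) = S := by
    have h1 : ∀ k < n, es 1 k = e k := by
      intro k hk
      simp only [hes, one_smul]
      exact ee_one (hSC k hk.le) (he k hk)
    ext i j
    simp only [SS, Matrix.of_apply, h1 i i.2, h1 j j.2]
    rcases lt_trichotomy i j with h | h | h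
    · rw [if_pos h, hSe i j h]
    · subst h
      simp [hU.2]
    · rw [if_neg h.not_gt, if_neg h.ne', hU.1 i j h]
  have hzero : (SS (es 0) : Matrix (Fin n) (Fin n) ℝ) ∈ Pset n := by
    refine ⟨SS_uni _, SS_psd (hes1 0 (by simp)) ?_⟩
    intro k hk
    simp only [hes, zero_smul]
    exact ee_zero _
  -- the connected set
  set A := (fun s : ℝ => (SS (es s) : Matrix (Fin n) (Fin n) ℝ)) '' (Set.Icc 0 1) with hA
  have hApre : IsPreconnected A := isPreconnected_Icc.image _ hcont
  have hunion : IsPreconnected (A ∪ Pset n) := by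
    apply IsPreconnected.union (SS (es 0)) _ hzero hApre Pset_preconn
    exact ⟨0, by simp, rfl⟩
  apply hunion.subset_connectedComponentIn (Or.inr one_mem_Pset)
  · apply Set.union_subset _ Pset_sub
    rintro _ ⟨s, hs, rfl⟩
    exact hmem s hs
  · left
    exact ⟨1, by simp, hone⟩

end

end Pool.Agent.TConn
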