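import Pool.Agent.TConn.Dense
import Pool.Agent.TConn.Elliptic

set_option autoImplicit false

open Matrix Filter Topology
open scoped Matrix.Norms.Operator

namespace Pool.Agent.TConn

variable {n : ℕ}

/-- strictly upper triangular part -/
def su : Matrix (Fin n) (Fin n) ℝ →ₗ[ℝ] Matrix (Fin n) (Fin n) ℝ where
  toFun D := Matrix.of fun i j => if i < j then D i j else 0
  map_add' D E := by
    ext i j
    simp only [Matrix.of_apply, Matrix.add_apply]
    split_ifs <;> simp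
  map_smul' c D := by
    ext i j
    simp only [Matrix.of_apply, Matrix.smul_apply, RingHom.id_apply]
    split_ifs <;> simp

theorem su_apply (D : Matrix (Fin n) (Fin n) ℝ) (i j : Fin n) :
    su D i j = if i < j then D i j else 0 := rfl

theorem inv_upper {S : Matrix (Fin n) (Fin n) ℝ} (hS : Uni S) : Uni S⁻¹ := by
  have hdet : IsUnit S.det := (Matrix.isUnit_iff_isUnit_det _).1 hS.isUnit
  have hup : ∀ i j : Fin n, j < i → S⁻¹ i j = 0 := by
    let _ : Invertible S := Matrix.invertibleOfIsUnitDet S hdet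
    have h1 : S.BlockTriangular id := by
      intro i j hij
      exact hS.1 i j hij
    have h2 := Matrix.blockTriangular_inv_of_blockTriangular h1
    intro i j hij
    exact h2 hij
  refine ⟨hup, fun i => ?_⟩
  have h1 : (S * S⁻¹) i i = 1 := by rw [Matrix.mul_nonsing_inv _ hdet]; simp
  rw [Matrix.mul_apply, Finset.sum_eq_single i] at h1
  · rwa [hS.2, one_mul] at h1
  · intro k _ hk
    rcases lt_or_gt_of_ne hk with h | h
    · rw [hS.1 i k h, zero_mul]
    · rw [hup k i h, mul_zero]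
  · intro h
    exact absurd (Finset.mem_univ i) h

theorem lin_surj {S : Matrix (Fin n) (Fin n) ℝ} (hS : Uni S) (Z : Matrix (Fin n) (Fin n) ℝ) :
    ∃ X D : Matrix (Fin n) (Fin n) ℝ, S * X + su D + Xᵀ * S = Z := by
  have hdet : IsUnit S.det := (Matrix.isUnit_iff_isUnit_det _).1 hS.isUnit
  have hI := inv_upper hS
  set Y : Matrix (Fin n) (Fin n) ℝ := Matrix.of fun i j =>
    if j < i then Z i j else if i = j then
      (Z i i - ∑ k : Fin n, if i < k then S⁻¹ i k * Z k i else 0) / 2 else 0 with hY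
  set X : Matrix (Fin n) (Fin n) ℝ := Matrix.of fun i j =>
    if j ≤ i then (S⁻¹ * Y) i j else 0 with hX
  have hSX : ∀ i j, j ≤ i → (S * X) i j = Y i j := by
    intro i j hij
    have h1 : (S * X) i j = (S * (S⁻¹ * Y)) i j := by
      rw [Matrix.mul_apply, Matrix.mul_apply]
      apply Finset.sum_congr rfl
      intro k _
      by_cases hk : k < i
      · rw [hS.1 i k hk, zero_mul, zero_mul]
      · have : j ≤ k := hij.trans (not_lt.1 hk)
        simp only [hX, Matrix.of_apply, if_pos this]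
    rw [h1, ← Matrix.mul_assoc, Matrix.mul_nonsing_inv _ hdet, Matrix.one_mul]
  have hXS : ∀ i j, j < i → (Xᵀ * S) i j = 0 := by
    intro i j hij
    rw [Matrix.mul_apply]
    apply Finset.sum_eq_zero
    intro k _
    rw [Matrix.transpose_apply]
    by_cases hk : k < i
    · simp [hX, hk.not_ge]
    · rw [hS.1 k j (hij.trans_le (not_lt.1 hk)), mul_zero]
  have hXSd : ∀ i, (Xᵀ * S) i i = X i i := by
    intro i
    rw [Matrix.mul_apply, Finset.sum_eq_single i]
    · rw [Matrix.transpose_apply, hS.2, mul_one]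
    · intro k _ hk
      rcases lt_or_gt_of_ne hk with h | h
      · simp [hX, h.not_ge]
      · rw [hS.1 k i h, mul_zero]
    · intro h
      exact absurd (Finset.mem_univ i) h
  have hXd : ∀ i, X i i = Y i i + ∑ k : Fin n, if i < k then S⁻¹ i k * Z k i else 0 := by
    intro i
    simp only [hX, Matrix.of_apply, le_refl, if_true]
    rw [Matrix.mul_apply]
    have h1 : ∀ k : Fin n, S⁻¹ i k * Y k i = (if k = i then Y i i else 0) +
        (if i < k then S⁻¹ i k * Z k i else 0) := by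
      intro k
      rcases lt_trichotomy k i with h | h | h
      · rw [hI.1 i k h, if_neg h.ne, if_neg h.not_gt]; ring
      · subst h
        rw [hI.2]; simp
      · rw [if_neg h.ne', if_pos h]
        simp [hY, h]
    rw [Finset.sum_congr rfl (fun k _ => h1 k), Finset.sum_add_distrib,
      Finset.sum_ite_eq' Finset.univ, if_pos (Finset.mem_univ _)]
  refine ⟨X, Z - S * X - Xᵀ * S, ?_⟩
  ext i j
  rw [Matrix.add_apply, Matrix.add_apply, su_apply]
  rcases lt_trichotomy i j with h | h | h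
  · rw [if_pos h]
    simp only [Matrix.sub_apply]
    ring
  · subst h
    rw [if_neg (lt_irrefl _), hXSd, hSX i i le_rfl, hXd]
    simp only [hY, Matrix.of_apply, lt_irrefl, if_false, if_true]
    ring
  · rw [if_neg h.not_gt, hXS i j h, hSX i j h.le]
    simp [hY, h]

/-- A unitriangular limit of elliptic forms is a limit of unitriangular elliptic forms. -/
theorem retract {S : Matrix (Fin n) (Fin n) ℝ} (hS : Uni S)
    (hcl : S ∈ closure {B : Matrix (Fin n) (Fin n) ℝ | Ell B}) :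
    S ∈ closure {B : Matrix (Fin n) (Fin n) ℝ | Uni B ∧ Ell B} := by
  set tr : Matrix (Fin n) (Fin n) ℝ →L[ℝ] Matrix (Fin n) (Fin n) ℝ :=
    LinearMap.toContinuousLinearMap
      ((Matrix.transposeLinearEquiv (Fin n) (Fin n) ℝ ℝ) :
        Matrix (Fin n) (Fin n) ℝ →ₗ[ℝ] Matrix (Fin n) (Fin n) ℝ) with htr
  set suc : Matrix (Fin n) (Fin n) ℝ →L[ℝ] Matrix (Fin n) (Fin n) ℝ :=
    LinearMap.toContinuousLinearMap su with hsuc
  set p1 : (Matrix (Fin n) (Fin n) ℝ × Matrix (Fin n) (Fin n) ℝ) →L[ℝ] Matrix (Fin n) (Fin n) ℝ :=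
    ContinuousLinearMap.fst ℝ _ _ with hp1
  set p2 : (Matrix (Fin n) (Fin n) ℝ × Matrix (Fin n) (Fin n) ℝ) →L[ℝ] Matrix (Fin n) (Fin n) ℝ :=
    ContinuousLinearMap.snd ℝ _ _ with hp2
  set F : (Matrix (Fin n) (Fin n) ℝ × Matrix (Fin n) (Fin n) ℝ) → Matrix (Fin n) (Fin n) ℝ :=
    fun p => (1 + (tr ∘L p1) p) * (S + (suc ∘L p2) p) * (1 + p1 p) with hF
  have d1 : HasStrictFDerivAt (fun p => 1 + (tr ∘L p1) p) (tr ∘L p1) (0 : _ × _) :=
    (tr ∘L p1).hasStrictFDerivAt.const_add 1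
  have d2 : HasStrictFDerivAt (fun p => S + (suc ∘L p2) p) (suc ∘L p2) (0 : _ × _) :=
    (suc ∘L p2).hasStrictFDerivAt.const_add S
  have d3 : HasStrictFDerivAt (fun p => 1 + p1 p) p1 (0 : _ × _) :=
    p1.hasStrictFDerivAt.const_add 1
  have d4 := (d1.mul' d2).mul' d3
  have hsurj : (((((fun p => 1 + (tr ∘L p1) p) * (fun p => S + (suc ∘L p2) p)) (0 : _ × _)) • p1 +
      MulOpposite.op ((fun p => 1 + p1 p) (0 : _ × _)) •
      (((fun p => 1 + (tr ∘L p1) p) (0 : _ × _)) • (suc ∘L p2) +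
      MulOpposite.op ((fun p => S + (suc ∘L p2) p) (0 : _ × _)) • (tr ∘L p1)) :
      (Matrix (Fin n) (Fin n) ℝ × Matrix (Fin n) (Fin n) ℝ) →L[ℝ] Matrix (Fin n) (Fin n) ℝ)).range = ⊤ := by
    rw [LinearMap.range_eq_top]
    intro Z
    obtain ⟨X, D, hXD⟩ := lin_surj hS Z
    refine ⟨(X, D), ?_⟩
    rw [← hXD]
    simp [hp1, hp2, htr, hsuc]
    abel
  have hmap := d4.map_nhds_eq_of_surj hsurj
  have hF' : ((fun p => 1 + (tr ∘L p1) p) * (fun p => S + (suc ∘L p2) p)) * (fun p => 1 + p1 p)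
      = F := rfl
  rw [hF'] at hmap
  have hF0 : F (0 : _ × _) = S := by simp [hF]
  rw [hF0] at hmap
  rw [mem_closure_iff_nhds]
  intro U hU
  -- the good parameters
  have hW1 : ∀ᶠ p : (Matrix (Fin n) (Fin n) ℝ × Matrix (Fin n) (Fin n) ℝ) in 𝓝 0,
      S + su p.2 ∈ U := by
    have hc : Continuous (fun p : (Matrix (Fin n) (Fin n) ℝ × Matrix (Fin n) (Fin n) ℝ) =>
        S + suc p.2) := by fun_prop
    have h0 : U ∈ 𝓝 (S + suc (0 : Matrix (Fin n) (Fin n) ℝ × Matrix (Fin n) (Fin n) ℝ).2) := by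
      simpa using hU
    exact hc.continuousAt.preimage_mem_nhds h0
  have hW2 : ∀ᶠ p : (Matrix (Fin n) (Fin n) ℝ × Matrix (Fin n) (Fin n) ℝ) in 𝓝 0,
      IsUnit (1 + p.1) := by
    have hc : Continuous (fun p : (Matrix (Fin n) (Fin n) ℝ × Matrix (Fin n) (Fin n) ℝ) =>
        1 + p.1) := by fun_prop
    have h0 : {X : Matrix (Fin n) (Fin n) ℝ | IsUnit X} ∈
        𝓝 (1 + (0 : Matrix (Fin n) (Fin n) ℝ × Matrix (Fin n) (Fin n) ℝ).1) := by
      apply Units.isOpen.mem_nhds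
      simp
    exact hc.continuousAt.preimage_mem_nhds h0
  have hW : F '' {p | S + su p.2 ∈ U ∧ IsUnit (1 + p.1)} ∈ 𝓝 S := by
    have h1 : F '' {p | S + su p.2 ∈ U ∧ IsUnit (1 + p.1)} ∈ Filter.map F (𝓝 0) :=
      Filter.image_mem_map (hW1.and hW2)
    exact hmap.ge h1
  obtain ⟨B, hB1, hB2⟩ := (mem_closure_iff_nhds.1 hcl) _ hW
  obtain ⟨p, ⟨hp1', hp2'⟩, hpB⟩ := hB1
  refine ⟨S + su p.2, hp1', ⟨?_, ?_⟩, ?_⟩
  · intro i j hij
    rw [Matrix.add_apply, su_apply, if_neg hij.not_gt, hS.1 i j hij, add_zero]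
  · intro i
    rw [Matrix.add_apply, su_apply, if_neg (lt_irrefl _), hS.2 i, add_zero]
  · have hdet := (Matrix.isUnit_iff_isUnit_det _).1 hp2'
    have e1 : (1 + p.1) * (1 + p.1)⁻¹ = 1 := Matrix.mul_nonsing_inv _ hdet
    have e2 : (1 + p.1)⁻¹ * (1 + p.1) = 1 := Matrix.nonsing_inv_mul _ hdet
    have hE : Ell B := hB2
    have h1 := hE.congr e1 e2
    have h2 : ((1 + p.1)⁻¹)ᵀ * B * (1 + p.1)⁻¹ = S + su p.2 := by
      have h3 : B = (1 + p.1)ᵀ * (S + su p.2) * (1 + p.1) := by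
        rw [← hpB]
        simp [hF, hp1, hp2, htr, hsuc]
      rw [h3]
      calc ((1 + p.1)⁻¹)ᵀ * ((1 + p.1)ᵀ * (S + su p.2) * (1 + p.1)) * (1 + p.1)⁻¹ =
          ((1 + p.1) * (1 + p.1)⁻¹)ᵀ * (S + su p.2) * ((1 + p.1) * (1 + p.1)⁻¹) := by
            rw [Matrix.transpose_mul]
            simp only [Matrix.mul_assoc]
        _ = S + su p.2 := by rw [e1, Matrix.transpose_one, Matrix.one_mul, Matrix.mul_one]
    rwa [h2] at h1

end Pool.Agent.TConn
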