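import Mathlib

set_option autoImplicit false

open Matrix

namespace Pool.Agent.TConn

variable {m : Type*} [Fintype m] [DecidableEq m]

/-- The condition on the spectrum of `B⁻¹Bᵀ`, in pencil form over `ℂ`. -/
def Unim (B : Matrix m m ℝ) : Prop :=
  ∀ (z : ℂ) (x : m → ℂ), x ≠ 0 →
    (B.map Complex.ofReal)ᵀ *ᵥ x = z • (B.map Complex.ofReal *ᵥ x) → ‖z‖ = 1

/-- Upper unitriangular. -/
def Uni {n : ℕ} (S : Matrix (Fin n) (Fin n) ℝ) : Prop :=
  (∀ i j : Fin n, j < i → S i j = 0) ∧ (∀ i : Fin n, S i i = 1)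

/-- The set `T(n,ℝ)`, in the form of the frozen statement. -/
def TSet (n : ℕ) : Set (Matrix (Fin n) (Fin n) ℝ) :=
  {S | (∀ i j : Fin n, j < i → S i j = 0) ∧ (∀ i : Fin n, S i i = 1) ∧
        ∀ z : ℂ, ((S⁻¹ * S.transpose).map Complex.ofReal).charpoly.IsRoot z → ‖z‖ = 1}

/-- Forms congruent to an orthogonal matrix. -/
def Ell (B : Matrix m m ℝ) : Prop :=
  ∃ P O : Matrix m m ℝ, IsUnit P ∧ Oᵀ * O = 1 ∧ B = Pᵀ * O * P

theorem map_mul' {l k p : Type*} [Fintype k] (A : Matrix l k ℝ) (B : Matrix k p ℝ) :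
    (A * B).map Complex.ofReal = A.map Complex.ofReal * B.map Complex.ofReal := by
  ext i j
  simp [Matrix.mul_apply]

theorem Uni.det {n : ℕ} {S : Matrix (Fin n) (Fin n) ℝ} (h : Uni S) : S.det = 1 := by
  rw [Matrix.det_of_isUpperTriangular]
  · simp [h.2]
  · intro i j hij
    exact h.1 i j hij

theorem Uni.isUnit {n : ℕ} {S : Matrix (Fin n) (Fin n) ℝ} (h : Uni S) : IsUnit S := by
  rw [Matrix.isUnit_iff_isUnit_det, h.det]
  exact isUnit_one

theorem map_isUnit {B : Matrix m m ℝ} (h : IsUnit B) : IsUnit (B.map Complex.ofReal) :=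
  h.map (RingHom.mapMatrix Complex.ofRealHom : Matrix m m ℝ →+* Matrix m m ℂ)

theorem mulVec_inj {K : Type*} [Field K] {B : Matrix m m K} (h : IsUnit B) {x y : m → K}
    (hxy : B *ᵥ x = B *ᵥ y) : x = y :=
  (Matrix.mulVec_injective_iff_isUnit.2 h) hxy

theorem unim_iff {S : Matrix m m ℝ} (hS : IsUnit S) :
    (∀ z : ℂ, ((S⁻¹ * S.transpose).map Complex.ofReal).charpoly.IsRoot z → ‖z‖ = 1) ↔ Unim S := by
  have key : ∀ (z : ℂ) (x : m → ℂ),
      ((Matrix.scalar m) z - (S⁻¹ * S.transpose).map Complex.ofReal) *ᵥ x = 0 ↔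
        (S.map Complex.ofReal)ᵀ *ᵥ x = z • (S.map Complex.ofReal *ᵥ x) := by
    intro z x
    have hdet : IsUnit S.det := (Matrix.isUnit_iff_isUnit_det _).1 hS
    have e1 : S.map Complex.ofReal * (S⁻¹ * S.transpose).map Complex.ofReal
        = (S.map Complex.ofReal)ᵀ := by
      rw [← map_mul', ← Matrix.mul_assoc, Matrix.mul_nonsing_inv _ hdet, Matrix.one_mul]
      rfl
    constructor
    · intro h
      have h2 : (S.map Complex.ofReal) *ᵥ
          (((Matrix.scalar m) z - (S⁻¹ * S.transpose).map Complex.ofReal) *ᵥ x) = 0 := by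
        rw [h]; simp
      rw [Matrix.mulVec_mulVec, Matrix.mul_sub, e1, Matrix.sub_mulVec, sub_eq_zero] at h2
      rw [← h2]
      simp [Matrix.smul_mulVec, Matrix.scalar_apply, ← Matrix.smul_one_eq_diagonal]
    · intro h
      apply mulVec_inj (map_isUnit hS)
      rw [Matrix.mulVec_mulVec, Matrix.mul_sub, e1, Matrix.sub_mulVec, h]
      simp [Matrix.smul_mulVec, Matrix.scalar_apply, ← Matrix.smul_one_eq_diagonal]
  constructor
  · intro h z x hx hzx
    apply h z
    rw [Polynomial.IsRoot.def, Matrix.eval_charpoly, ← Matrix.exists_mulVec_eq_zero_iff]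
    exact ⟨x, hx, (key z x).2 hzx⟩
  · intro h z hz
    rw [Polynomial.IsRoot.def, Matrix.eval_charpoly, ← Matrix.exists_mulVec_eq_zero_iff] at hz
    obtain ⟨x, hx, hzx⟩ := hz
    exact h z x hx ((key z x).1 hzx)

theorem mem_TSet_iff {n : ℕ} {S : Matrix (Fin n) (Fin n) ℝ} :
    S ∈ TSet n ↔ Uni S ∧ Unim S := by
  constructor
  · rintro ⟨h1, h2, h3⟩
    have hU : Uni S := ⟨h1, h2⟩
    exact ⟨hU, (unim_iff hU.isUnit).1 h3⟩
  · rintro ⟨hU, h3⟩
    exact ⟨hU.1, hU.2, (unim_iff hU.isUnit).2 h3⟩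

omit [DecidableEq m] in
/-- It suffices to check the spectral condition through real vectors. -/
theorem unim_of_real {B : Matrix m m ℝ}
    (h : ∀ (c d : ℝ) (x y : m → ℝ), (x ≠ 0 ∨ y ≠ 0) → Bᵀ *ᵥ x = B *ᵥ (c • x - d • y) →
      Bᵀ *ᵥ y = B *ᵥ (d • x + c • y) → c ^ 2 + d ^ 2 = 1) : Unim B := by
  intro z x hx hzx
  have hre : ∀ i, ((B.map Complex.ofReal)ᵀ *ᵥ x) i = (z • (B.map Complex.ofReal *ᵥ x)) i :=
    fun i => congrFun hzx i
  have e1 : ∀ (C : Matrix m m ℝ) (i : m), ((C.map Complex.ofReal) *ᵥ x) i =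
      (((C *ᵥ (fun j => (x j).re)) i : ℝ) : ℂ) + (((C *ᵥ (fun j => (x j).im)) i : ℝ) : ℂ) * Complex.I := by
    intro C i
    simp only [Matrix.mulVec, dotProduct, Matrix.map_apply]
    push_cast
    rw [Finset.sum_mul, ← Finset.sum_add_distrib]
    apply Finset.sum_congr rfl
    intro j _
    conv_lhs => rw [← Complex.re_add_im (x j)]
    ring
  have key := h z.re z.im (fun j => (x j).re) (fun j => (x j).im) ?_ ?_ ?_
  · have : ‖z‖ ^ 2 = 1 := by
      rw [← Complex.normSq_eq_norm_sq, Complex.normSq_apply]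
      nlinarith [key]
    have h0 := norm_nonneg z
    nlinarith [this, h0]
  · by_contra hcon
    push Not at hcon
    apply hx
    ext j
    apply Complex.ext
    · exact congrFun hcon.1 j
    · exact congrFun hcon.2 j
  · ext i
    have h1 := hre i
    rw [← Matrix.transpose_map, e1, Pi.smul_apply, e1, smul_eq_mul] at h1
    have h2 := congrArg Complex.re h1
    rw [Matrix.mulVec_sub, Matrix.mulVec_smul, Matrix.mulVec_smul]
    simpa using h2
  · ext i
    have h1 := hre i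
    rw [← Matrix.transpose_map, e1, Pi.smul_apply, e1, smul_eq_mul] at h1
    have h2 := congrArg Complex.im h1
    rw [Matrix.mulVec_add, Matrix.mulVec_smul, Matrix.mulVec_smul]
    simp at h2
    simp
    linarith

/-- A unitriangular matrix with nonnegative symmetric part lies in `T`. -/
theorem unim_of_psd {S : Matrix m m ℝ} (hS : IsUnit S) (hpsd : ∀ u : m → ℝ, 0 ≤ u ⬝ᵥ S *ᵥ u) :
    Unim S := by
  have hP : (S + Sᵀ).PosSemidef := by
    rw [Matrix.posSemidef_iff_dotProduct_mulVec]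
    constructor
    · rw [Matrix.IsHermitian, Matrix.conjTranspose_eq_transpose_of_trivial]
      simp [add_comm]
    · intro x
      rw [Matrix.add_mulVec, dotProduct_add]
      have h2 : star x ⬝ᵥ Sᵀ *ᵥ x = x ⬝ᵥ S *ᵥ x := by
        rw [Matrix.dotProduct_mulVec, Matrix.vecMul_transpose, dotProduct_comm]
        simp
      rw [h2]
      have := hpsd x
      have h3 : star x = x := by ext; simp
      rw [h3]
      linarith
  have hzero : ∀ x : m → ℝ, x ⬝ᵥ S *ᵥ x = 0 → Sᵀ *ᵥ x = - (S *ᵥ x) := by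
    intro x hx
    have h1 := (hP.dotProduct_mulVec_zero_iff x).1 (by
      have h2 : star x ⬝ᵥ Sᵀ *ᵥ x = x ⬝ᵥ S *ᵥ x := by
        rw [Matrix.dotProduct_mulVec, Matrix.vecMul_transpose, dotProduct_comm]
        simp
      have h3 : star x = x := by ext; simp
      rw [Matrix.add_mulVec, dotProduct_add, h2, h3, hx, add_zero])
    rw [Matrix.add_mulVec] at h1
    exact eq_neg_of_add_eq_zero_right h1
  apply unim_of_real
  intro c d x y hxy h1 h2
  have tr : ∀ u v : m → ℝ, u ⬝ᵥ Sᵀ *ᵥ v = v ⬝ᵥ S *ᵥ u := by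
    intro u v
    rw [Matrix.dotProduct_mulVec, Matrix.vecMul_transpose, dotProduct_comm]
  have a1 : x ⬝ᵥ S *ᵥ x = c * (x ⬝ᵥ S *ᵥ x) - d * (x ⬝ᵥ S *ᵥ y) := by
    have := congrArg (fun w => x ⬝ᵥ w) h1
    simp only [tr, Matrix.mulVec_sub, Matrix.mulVec_smul, dotProduct_sub, dotProduct_smul,
      smul_eq_mul] at this
    exact this
  have a2 : x ⬝ᵥ S *ᵥ y = c * (y ⬝ᵥ S *ᵥ x) - d * (y ⬝ᵥ S *ᵥ y) := by
    have := congrArg (fun w => y ⬝ᵥ w) h1
    simp only [tr, Matrix.mulVec_sub, Matrix.mulVec_smul, dotProduct_sub, dotProduct_smul,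
      smul_eq_mul] at this
    exact this
  have a3 : y ⬝ᵥ S *ᵥ x = d * (x ⬝ᵥ S *ᵥ x) + c * (x ⬝ᵥ S *ᵥ y) := by
    have := congrArg (fun w => x ⬝ᵥ w) h2
    simp only [tr, Matrix.mulVec_add, Matrix.mulVec_smul, dotProduct_add, dotProduct_smul,
      smul_eq_mul] at this
    exact this
  have a4 : y ⬝ᵥ S *ᵥ y = d * (y ⬝ᵥ S *ᵥ x) + c * (y ⬝ᵥ S *ᵥ y) := by
    have := congrArg (fun w => y ⬝ᵥ w) h2
    simp only [tr, Matrix.mulVec_add, Matrix.mulVec_smul, dotProduct_add, dotProduct_smul,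
      smul_eq_mul] at this
    exact this
  set p := x ⬝ᵥ S *ᵥ x + y ⬝ᵥ S *ᵥ y with hp
  set q := x ⬝ᵥ S *ᵥ y - y ⬝ᵥ S *ᵥ x with hq
  have b1 : p = c * p - d * q := by rw [hp, hq]; linarith
  have b2 : -q = d * p + c * q := by rw [hp, hq]; linarith
  by_cases hpq : p ^ 2 + q ^ 2 = 0
  · have hp0 : p = 0 := by nlinarith [sq_nonneg p, sq_nonneg q]
    have hx0 : x ⬝ᵥ S *ᵥ x = 0 := by have := hpsd x; have := hpsd y; linarith
    have hy0 : y ⬝ᵥ S *ᵥ y = 0 := by have := hpsd x; have := hpsd y; linarith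
    have c1 := hzero x hx0
    have c2 := hzero y hy0
    rw [c1] at h1
    rw [c2] at h2
    rw [← Matrix.mulVec_neg] at h1 h2
    have d1 := mulVec_inj hS h1
    have d2 := mulVec_inj hS h2
    have f1 : ∀ j, - x j = c * x j - d * y j := fun j => by
      have := congrFun d1 j; simpa using this
    have f2 : ∀ j, - y j = d * x j + c * y j := fun j => by
      have := congrFun d2 j; simpa using this
    have hne : ∃ j, x j ≠ 0 ∨ y j ≠ 0 := by
      by_contra hcon
      push Not at hcon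
      rcases hxy with h | h
      · exact h (funext fun j => (hcon j).1)
      · exact h (funext fun j => (hcon j).2)
    obtain ⟨j, hj⟩ := hne
    have g1 := f1 j
    have g2 := f2 j
    have hpos : 0 < x j ^ 2 + y j ^ 2 := by
      rcases hj with h | h
      · have := sq_nonneg (y j); positivity
      · have := sq_nonneg (x j); positivity
    have hz : ((1 + c) ^ 2 + d ^ 2) * (x j ^ 2 + y j ^ 2) = 0 := by
      have e1 : (1 + c) * x j = d * y j := by linarith
      have e2 : (1 + c) * y j = - d * x j := by linarith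
      have e3 : (1+c) * (x j ^ 2 + y j ^ 2) = 0 := by
        have : (1+c) * (x j ^ 2 + y j ^ 2) = ((1 + c) * x j) * x j + ((1 + c) * y j) * y j := by ring
        rw [this, e1, e2]; ring
      have e4 : d * (x j ^ 2 + y j ^ 2) = 0 := by
        have : d * (x j ^ 2 + y j ^ 2) = (d * y j) * y j - (- d * x j) * x j := by ring
        rw [this, ← e1, ← e2]; ring
      have : ((1 + c) ^ 2 + d ^ 2) * (x j ^ 2 + y j ^ 2) =
        (1 + c) * ((1+c) * (x j ^ 2 + y j ^ 2)) + d * (d * (x j ^ 2 + y j ^ 2)) := by ring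
      rw [this, e3, e4]; ring
    have hz' : (1 + c) ^ 2 + d ^ 2 = 0 := by
      rcases mul_eq_zero.1 hz with h | h
      · exact h
      · exact absurd h hpos.ne'
    have hc : 1 + c = 0 := by nlinarith [sq_nonneg (1 + c), sq_nonneg d]
    have hd : d = 0 := by nlinarith [sq_nonneg (1 + c), sq_nonneg d]
    rw [hd]
    have : c = -1 := by linarith
    rw [this]; norm_num
  · have : p ^ 2 + q ^ 2 = (c ^ 2 + d ^ 2) * (p ^ 2 + q ^ 2) := by
      have : p ^ 2 + q ^ 2 = p ^ 2 + (-q) ^ 2 := by ring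
      calc p ^ 2 + q ^ 2 = p ^ 2 + (-q) ^ 2 := by ring
        _ = (c * p - d * q) ^ 2 + (d * p + c * q) ^ 2 := by rw [← b1, ← b2]
        _ = _ := by ring
    have h3 : (c ^ 2 + d ^ 2 - 1) * (p ^ 2 + q ^ 2) = 0 := by linarith
    rcases mul_eq_zero.1 h3 with h | h
    · linarith
    · exact absurd h hpq

end Pool.Agent.TConn
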