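import Pool.Agent.TConn.Contr

set_option autoImplicit false

open Matrix Filter Topology

namespace Pool.Agent.TConn

variable {m : Type*} [Fintype m] [DecidableEq m]

/-- the interpolating family -/
noncomputable def Nf (d : m → ℤ) (ν : Matrix m m ℝ) (ε : ℝ) : Matrix m m ℝ :=
  Matrix.of fun i j => ν i j - ε ^ (2 * (d i - d j).toNat) * ν j i

omit [Fintype m] [DecidableEq m] in
theorem Nf_zero {d : m → ℤ} {ν : Matrix m m ℝ} (hν : ∀ i j, ν i j ≠ 0 → d i < d j) :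
    Nf d ν 0 = ν := by
  ext i j
  simp only [Nf, Matrix.of_apply]
  by_cases h : ν j i = 0
  · rw [h]; ring
  · have h1 := hν j i h
    have h2 : (d i - d j).toNat ≠ 0 := by omega
    rw [zero_pow (by omega)]
    ring

omit [Fintype m] [DecidableEq m] in
theorem Nf_cont (d : m → ℤ) (ν : Matrix m m ℝ) : Continuous (Nf d ν) := by
  apply continuous_matrix
  intro i j
  simp only [Nf, Matrix.of_apply]
  fun_prop

/-- the scaling matrices -/
noncomputable def Dm (d : m → ℤ) (ε : ℝ) : Matrix m m ℝ := diagonal (fun i => ε ^ (d i))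

theorem Dm_mul (d : m → ℤ) {ε : ℝ} (hε : 0 < ε) : Dm d ε * Dm (-d) ε = 1 := by
  rw [Dm, Dm, Matrix.diagonal_mul_diagonal, ← Matrix.diagonal_one]
  congr 1
  ext i
  rw [← zpow_add₀ hε.ne']
  simp

theorem Nf_eq {d : m → ℤ} {ν : Matrix m m ℝ} (hν : ∀ i j, ν i j ≠ 0 → d i < d j) {ε : ℝ}
    (hε : 0 < ε) : ∃ K : Matrix m m ℝ, Kᵀ = -K ∧ Nf d ν ε = Dm d ε * K * Dm (-d) ε := by
  refine ⟨Matrix.of fun i j => ε ^ (-(d i)) * ν i j * ε ^ (d j) - ε ^ (-(d j)) * ν j i * ε ^ (d i),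
    ?_, ?_⟩
  · ext i j
    simp
  · ext i j
    rw [Dm, Dm, Matrix.mul_diagonal, Matrix.diagonal_mul]
    simp only [Nf, Matrix.of_apply, Pi.neg_apply]
    have e0 : ε ^ (d i) * (ε ^ (-(d i)) * ν i j * ε ^ (d j) - ε ^ (-(d j)) * ν j i * ε ^ (d i)) *
        ε ^ (-(d j)) = (ε ^ (d i) * ε ^ (-(d i))) * (ε ^ (d j) * ε ^ (-(d j))) * ν i j -
        (ε ^ (d i) * ε ^ (-(d j))) ^ 2 * ν j i := by ring
    have ha : ∀ k : ℤ, ε ^ k * ε ^ (-k) = 1 := by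
      intro k
      rw [← zpow_add₀ hε.ne', add_neg_cancel, zpow_zero]
    rw [e0, ha, ha, ← zpow_add₀ hε.ne', one_mul, one_mul]
    by_cases h : ν j i = 0
    · rw [h]; ring
    · have h1 := hν j i h
      congr 2
      rw [← zpow_natCast, ← zpow_natCast, ← _root_.zpow_mul]
      congr 1
      push_cast
      rw [Int.toNat_of_nonneg (by omega)]
      ring

theorem skew_unit {K : Matrix m m ℝ} (hK : Kᵀ = -K) : IsUnit (1 - (1/2 : ℝ) • K) := by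
  rw [← Matrix.mulVec_injective_iff_isUnit]
  have hskew : ∀ u : m → ℝ, u ⬝ᵥ K *ᵥ u = 0 := by
    intro u
    have h1 : u ⬝ᵥ Kᵀ *ᵥ u = u ⬝ᵥ K *ᵥ u := by
      rw [Matrix.dotProduct_mulVec, Matrix.vecMul_transpose, dotProduct_comm]
    rw [hK, Matrix.neg_mulVec, dotProduct_neg] at h1
    linarith
  have h0 : ∀ u : m → ℝ, (1 - (1/2 : ℝ) • K) *ᵥ u = 0 → u = 0 := by
    intro u hu
    have h1 : u ⬝ᵥ ((1 - (1/2 : ℝ) • K) *ᵥ u) = 0 := by rw [hu]; simp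
    rw [Matrix.sub_mulVec, Matrix.one_mulVec, Matrix.smul_mulVec, dotProduct_sub,
      dotProduct_smul, hskew, smul_zero, sub_zero] at h1
    exact dotProduct_self_eq_zero.1 h1
  intro u v huv
  have h1 : (1 - (1/2 : ℝ) • K) *ᵥ (u - v) = 0 := by
    rw [Matrix.mulVec_sub, sub_eq_zero]
    exact huv
  exact sub_eq_zero.1 (h0 _ h1)

theorem cayley_orth {K : Matrix m m ℝ} (hK : Kᵀ = -K) :
    ((2 : ℝ) • (1 - (1/2 : ℝ) • K)⁻¹ - 1)ᵀ * ((2 : ℝ) • (1 - (1/2 : ℝ) • K)⁻¹ - 1) = 1 := by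
  set X := (1 - (1/2 : ℝ) • K) with hX
  have hXu : IsUnit X.det := (Matrix.isUnit_iff_isUnit_det _).1 (skew_unit hK)
  set H := X⁻¹ with hH
  have h1 : X * H = 1 := Matrix.mul_nonsing_inv _ hXu
  have h1' : Hᵀ * Xᵀ = 1 := by rw [← Matrix.transpose_mul, h1, Matrix.transpose_one]
  have h2 : X + Xᵀ = (2 : ℝ) • 1 := by
    rw [hX, Matrix.transpose_sub, Matrix.transpose_smul, hK, Matrix.transpose_one]
    ext i j
    simp
    ring
  have h3 : Hᵀ + H = (2 : ℝ) • (Hᵀ * H) := by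
    calc Hᵀ + H = Hᵀ * (X * H) + (Hᵀ * Xᵀ) * H := by rw [h1, h1', Matrix.mul_one, Matrix.one_mul]
      _ = Hᵀ * (X + Xᵀ) * H := by simp only [Matrix.mul_add, Matrix.add_mul, Matrix.mul_assoc]
      _ = _ := by rw [h2]; simp
  calc ((2 : ℝ) • H - 1)ᵀ * ((2 : ℝ) • H - 1) = (4 : ℝ) • (Hᵀ * H) - (2 : ℝ) • (Hᵀ + H) + 1 := by
        rw [Matrix.transpose_sub, Matrix.transpose_smul, Matrix.transpose_one]
        simp only [Matrix.sub_mul, Matrix.mul_sub, Matrix.smul_mul, Matrix.mul_smul, Matrix.one_mul,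
          Matrix.mul_one]
        module
    _ = 1 := by
        rw [h3, smul_smul]
        norm_num

/-- Approximation of a unipotent perturbation by elliptic forms. -/
theorem cayley_approx {B₀ ν : Matrix m m ℝ} {d : m → ℤ} (hB : B₀ᵀ * B₀ = 1)
    (hBd : ∀ i j, B₀ i j ≠ 0 → d i + d j = 0) (hν : ∀ i j, ν i j ≠ 0 → d i < d j)
    (hν2 : ν * ν = 0) : B₀ + B₀ * ν ∈ closure {B : Matrix m m ℝ | Ell B} := by
  set F : ℝ → Matrix m m ℝ := fun ε => B₀ * ((2 : ℝ) • (1 - (1/2 : ℝ) • Nf d ν ε)⁻¹ - 1) with hF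
  have hu0 : (1 - (1/2 : ℝ) • ν) * (1 + (1/2 : ℝ) • ν) = 1 := by
    simp only [Matrix.sub_mul, Matrix.mul_add, Matrix.smul_mul, Matrix.mul_smul, Matrix.one_mul,
      Matrix.mul_one, hν2]
    simp
  have hF0 : F 0 = B₀ + B₀ * ν := by
    simp only [hF, Nf_zero hν]
    rw [Matrix.inv_eq_right_inv hu0, smul_add, smul_smul]
    norm_num
    rw [two_smul]
    simp only [Matrix.mul_sub, Matrix.mul_add, Matrix.mul_one]
    abel
  have hcont : ContinuousAt F 0 := by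
    have h1 : ContinuousAt (fun ε : ℝ => (1 - (1/2 : ℝ) • Nf d ν ε)⁻¹) 0 := by
      have hc : Continuous (fun ε : ℝ => (1 - (1/2 : ℝ) • Nf d ν ε)) := by
        have := Nf_cont d ν
        fun_prop
      refine ContinuousAt.comp (g := Inv.inv) (f := fun ε : ℝ => (1 - (1/2 : ℝ) • Nf d ν ε))
        (continuousAt_inv ?_) hc.continuousAt
      rw [Nf_zero hν]
      exact IsUnit.of_mul_eq_one _ hu0
    have h2 : Continuous (fun X : Matrix m m ℝ => B₀ * ((2 : ℝ) • X - 1)) := by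
      fun_prop
    exact ContinuousAt.comp (g := fun X : Matrix m m ℝ => B₀ * ((2 : ℝ) • X - 1))
      h2.continuousAt h1
  rw [← hF0]
  apply mem_closure_of_tendsto (b := 𝓝[>] (0:ℝ)) (hcont.tendsto.mono_left nhdsWithin_le_nhds)
  filter_upwards [self_mem_nhdsWithin] with ε hε
  have hε' : 0 < ε := hε
  obtain ⟨K, hK, hN⟩ := Nf_eq hν hε'
  have hD := Dm_mul d hε'
  have hD' : Dm (-d) ε * Dm d ε = 1 := mul_eq_one_comm.1 hD
  set D := Dm d ε with hDd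
  set D' := Dm (-d) ε with hDd'
  have hX : 1 - (1/2 : ℝ) • Nf d ν ε = D * (1 - (1/2 : ℝ) • K) * D' := by
    rw [hN, Matrix.mul_sub, Matrix.sub_mul, Matrix.mul_one, hD]
    simp [Matrix.mul_assoc]
  have hXu : IsUnit (1 - (1/2 : ℝ) • K).det := (Matrix.isUnit_iff_isUnit_det _).1 (skew_unit hK)
  have hinv : (1 - (1/2 : ℝ) • Nf d ν ε)⁻¹ = D * (1 - (1/2 : ℝ) • K)⁻¹ * D' := by
    apply Matrix.inv_eq_right_inv
    rw [hX]
    calc D * (1 - (1/2 : ℝ) • K) * D' * (D * (1 - (1/2 : ℝ) • K)⁻¹ * D')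
        = D * (1 - (1/2 : ℝ) • K) * (D' * D) * (1 - (1/2 : ℝ) • K)⁻¹ * D' := by
          simp only [Matrix.mul_assoc]
      _ = D * ((1 - (1/2 : ℝ) • K) * (1 - (1/2 : ℝ) • K)⁻¹) * D' := by
          rw [hD', Matrix.mul_one]; simp only [Matrix.mul_assoc]
      _ = 1 := by rw [Matrix.mul_nonsing_inv _ hXu, Matrix.mul_one, hD]
  have hDB : D * B₀ * D = B₀ := by
    ext i j
    rw [hDd, Dm, Matrix.mul_diagonal, Matrix.diagonal_mul]
    by_cases h : B₀ i j = 0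
    · rw [h]; ring
    · have h1 := hBd i j h
      calc ε ^ d i * B₀ i j * ε ^ d j = (ε ^ d i * ε ^ d j) * B₀ i j := by ring
        _ = B₀ i j := by rw [← zpow_add₀ hε'.ne', h1, zpow_zero, one_mul]
  have hBD : B₀ * D = D' * B₀ := by
    calc B₀ * D = (D' * D) * B₀ * D := by rw [hD', Matrix.one_mul]
      _ = D' * (D * B₀ * D) := by simp only [Matrix.mul_assoc]
      _ = D' * B₀ := by rw [hDB]
  refine ⟨D', B₀ * ((2 : ℝ) • (1 - (1/2 : ℝ) • K)⁻¹ - 1), IsUnit.of_mul_eq_one D hD', ?_, ?_⟩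
  · rw [Matrix.transpose_mul]
    calc ((2 : ℝ) • (1 - (1/2 : ℝ) • K)⁻¹ - 1)ᵀ * B₀ᵀ * (B₀ * ((2 : ℝ) • (1 - (1/2 : ℝ) • K)⁻¹ - 1))
        = ((2 : ℝ) • (1 - (1/2 : ℝ) • K)⁻¹ - 1)ᵀ * (B₀ᵀ * B₀) *
          ((2 : ℝ) • (1 - (1/2 : ℝ) • K)⁻¹ - 1) := by simp only [Matrix.mul_assoc]
      _ = 1 := by rw [hB, Matrix.mul_one, cayley_orth hK]
  · have hD't : D'ᵀ = D' := by rw [hDd', Dm, Matrix.diagonal_transpose]
    simp only [hF]
    rw [hinv, hD't]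
    calc B₀ * ((2 : ℝ) • (D * (1 - (1/2 : ℝ) • K)⁻¹ * D') - 1)
        = B₀ * (D * ((2 : ℝ) • (1 - (1/2 : ℝ) • K)⁻¹ - 1) * D') := by
          congr 1
          rw [Matrix.mul_sub, Matrix.sub_mul, Matrix.mul_one, hD]
          simp [Matrix.mul_assoc]
      _ = (B₀ * D) * ((2 : ℝ) • (1 - (1/2 : ℝ) • K)⁻¹ - 1) * D' := by
          simp only [Matrix.mul_assoc]
      _ = _ := by rw [hBD]; simp only [Matrix.mul_assoc]

end Pool.Agent.TConn
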