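import Pool.Agent.TConn.Refl

set_option autoImplicit false

open Matrix

namespace Pool.Agent.TConn

theorem dot_self_nonneg {m : Type*} [Fintype m] (v : m → ℝ) : 0 ≤ v ⬝ᵥ v := by
  rw [dotProduct]
  exact Finset.sum_nonneg fun i _ => mul_self_nonneg _

theorem dot_self_pos {m : Type*} [Fintype m] {v : m → ℝ} (hv : v ≠ 0) : 0 < v ⬝ᵥ v := by
  rcases (dot_self_nonneg v).lt_or_eq with h | h
  · exact h
  · exact absurd (dotProduct_self_eq_zero.1 h.symm) hv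

section

variable {m : Type*} [Fintype m]

/-- strict contractions -/
def SC (ψ : Matrix m m ℝ) : Prop := ∀ u : m → ℝ, u ≠ 0 → (ψ *ᵥ u) ⬝ᵥ (ψ *ᵥ u) < u ⬝ᵥ u

def al (φ : Matrix m m ℝ) (e : (m → ℝ) × (m → ℝ)) : m → ℝ := e.1 - φᵀ *ᵥ e.2
def be (φ : Matrix m m ℝ) (e : (m → ℝ) × (m → ℝ)) : m → ℝ := e.2 - φ *ᵥ e.1
def De (φ : Matrix m m ℝ) (e : (m → ℝ) × (m → ℝ)) : ℝ := 2 * (al φ e ⬝ᵥ e.1) - 1
noncomputable def nx (φ : Matrix m m ℝ) (e : (m → ℝ) × (m → ℝ)) : Matrix m m ℝ :=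
  φ + vecMulVec ((2 / De φ e) • be φ e) (al φ e)

theorem dot_mulVec_comm (φ : Matrix m m ℝ) (u v : m → ℝ) :
    (φ *ᵥ u) ⬝ᵥ v = u ⬝ᵥ (φᵀ *ᵥ v) := by
  rw [Matrix.dotProduct_mulVec, Matrix.vecMul_transpose]

theorem G_graph (φ : Matrix m m ℝ) (e : (m → ℝ) × (m → ℝ)) (u : m → ℝ) :
    G (u, φ *ᵥ u) e = u ⬝ᵥ al φ e := by
  simp only [G, al, dotProduct_sub, dot_mulVec_comm]

theorem al_dot (φ : Matrix m m ℝ) (e : (m → ℝ) × (m → ℝ)) :
    al φ e ⬝ᵥ e.1 = e.1 ⬝ᵥ e.1 - e.2 ⬝ᵥ (φ *ᵥ e.1) := by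
  have h := dot_mulVec_comm φ e.1 e.2
  rw [al, sub_dotProduct, dotProduct_comm (φᵀ *ᵥ e.2), ← h, dotProduct_comm (φ *ᵥ e.1)]

theorem De_pos {φ : Matrix m m ℝ} (hφ : SC φ) {e : (m → ℝ) × (m → ℝ)} (he : G e e = 1) :
    0 < De φ e := by
  have h1 : e.1 ≠ 0 := by
    intro h
    have h2 : G e e = - (e.2 ⬝ᵥ e.2) := by simp [G, h]
    have := dot_self_nonneg e.2
    linarith
  have h2 := hφ e.1 h1
  have h3 := dot_self_nonneg (e.2 - φ *ᵥ e.1)
  simp only [sub_dotProduct, dotProduct_sub] at h3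
  rw [dotProduct_comm (φ *ᵥ e.1) e.2] at h3
  rw [De, al_dot]
  simp only [G] at he
  linarith

theorem al_ne {φ : Matrix m m ℝ} (hφ : SC φ) {e : (m → ℝ) × (m → ℝ)} (he : G e e = 1) :
    al φ e ≠ 0 := by
  intro h
  have := De_pos hφ he
  rw [De, h, zero_dotProduct] at this
  linarith

theorem rf_fst (φ : Matrix m m ℝ) (e : (m → ℝ) × (m → ℝ)) (u : m → ℝ) :
    (rf e (u, φ *ᵥ u)).1 = u - (2 * (u ⬝ᵥ al φ e)) • e.1 := by
  rw [rf_apply, G_graph]
  rfl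

theorem rf_snd (φ : Matrix m m ℝ) (e : (m → ℝ) × (m → ℝ)) (u : m → ℝ) :
    (rf e (u, φ *ᵥ u)).2 = φ *ᵥ u - (2 * (u ⬝ᵥ al φ e)) • e.2 := by
  rw [rf_apply, G_graph]
  rfl

theorem nx_mulVec (φ : Matrix m m ℝ) (e : (m → ℝ) × (m → ℝ)) (u : m → ℝ) :
    nx φ e *ᵥ u = φ *ᵥ u + (2 / De φ e * (u ⬝ᵥ al φ e)) • be φ e := by
  rw [nx, Matrix.add_mulVec, Matrix.vecMulVec_mulVec, dotProduct_comm]
  congr 1
  ext i
  simp
  ring

theorem rf_graph {φ : Matrix m m ℝ} {e : (m → ℝ) × (m → ℝ)} (hD : De φ e ≠ 0) (u : m → ℝ) :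
    (rf e (u, φ *ᵥ u)).2 = nx φ e *ᵥ (rf e (u, φ *ᵥ u)).1 := by
  rw [rf_fst, rf_snd, nx_mulVec, Matrix.mulVec_sub, Matrix.mulVec_smul, sub_dotProduct,
    smul_dotProduct, smul_eq_mul]
  have h1 : e.1 ⬝ᵥ al φ e = (De φ e + 1) / 2 := by
    rw [De, dotProduct_comm]; ring
  have h2 : 2 / De φ e * (u ⬝ᵥ al φ e - 2 * (u ⬝ᵥ al φ e) * (e.1 ⬝ᵥ al φ e)) =
      - (2 * (u ⬝ᵥ al φ e)) := by
    rw [h1]
    field_simp
    ring
  rw [h2, be, smul_sub, neg_smul, neg_smul]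
  abel

/-- preimage under the reflection of a point in the new graph. -/
theorem rf_pre {φ : Matrix m m ℝ} {e : (m → ℝ) × (m → ℝ)} (hD : De φ e ≠ 0) (u' : m → ℝ) :
    ∃ u : m → ℝ, rf e (u, φ *ᵥ u) = (u', nx φ e *ᵥ u') ∧
      u ⬝ᵥ al φ e = - (u' ⬝ᵥ al φ e) / De φ e := by
  have h1 : e.1 ⬝ᵥ al φ e = (De φ e + 1) / 2 := by
    rw [De, dotProduct_comm]; ring
  have hdot : (u' - (2 / De φ e * (u' ⬝ᵥ al φ e)) • e.1) ⬝ᵥ al φ e =
      - (u' ⬝ᵥ al φ e) / De φ e := by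
    rw [sub_dotProduct, smul_dotProduct, smul_eq_mul, h1]
    field_simp
    ring
  refine ⟨u' - (2 / De φ e * (u' ⬝ᵥ al φ e)) • e.1, ?_, hdot⟩
  have hfst : (rf e (u' - (2 / De φ e * (u' ⬝ᵥ al φ e)) • e.1,
      φ *ᵥ (u' - (2 / De φ e * (u' ⬝ᵥ al φ e)) • e.1))).1 = u' := by
    rw [rf_fst, hdot, sub_sub, ← add_smul]
    have : 2 / De φ e * (u' ⬝ᵥ al φ e) + 2 * (-(u' ⬝ᵥ al φ e) / De φ e) = 0 := by
      field_simp
      ring
    rw [this, zero_smul, sub_zero]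
  apply Prod.ext
  · exact hfst
  · rw [rf_graph hD, hfst]

theorem SC_nx {φ : Matrix m m ℝ} (hφ : SC φ) {e : (m → ℝ) × (m → ℝ)} (he : G e e = 1) :
    SC (nx φ e) := by
  intro u' hu'
  obtain ⟨u, hu, -⟩ := rf_pre (De_pos hφ he).ne' u'
  have h1 := rf_isom he (u, φ *ᵥ u) (u, φ *ᵥ u)
  rw [hu] at h1
  have h2 : u ≠ 0 := by
    intro h
    rw [h] at hu
    have h3 : ((0 : m → ℝ), φ *ᵥ (0 : m → ℝ)) = (0 : (m → ℝ) × (m → ℝ)) := by simp
    rw [h3, map_zero] at hu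
    exact hu' (congrArg Prod.fst hu).symm
  have h3 := hφ u h2
  simp only [G] at h1
  linarith

theorem SC_zero : SC (0 : Matrix m m ℝ) := by
  intro u hu
  simpa using dot_self_pos hu

/-- the sequence of contractions attached to a sequence of vectors. -/
noncomputable def phi (e : ℕ → (m → ℝ) × (m → ℝ)) : ℕ → Matrix m m ℝ
  | 0 => 0
  | (k+1) => nx (phi e k) (e k)

theorem SC_phi {e : ℕ → (m → ℝ) × (m → ℝ)} {n : ℕ} (he : ∀ k < n, G (e k) (e k) = 1) (k : ℕ)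
    (hk : k ≤ n) : SC (phi e k) := by
  induction k with
  | zero => exact SC_zero
  | succ k ih => exact SC_nx (ih (by omega)) (he k (by omega))

theorem chain_graph {e : ℕ → (m → ℝ) × (m → ℝ)} {n : ℕ} {φ : ℕ → Matrix m m ℝ}
    (h0 : φ 0 = 0)
    (hstep : ∀ k < n, ∀ u : m → ℝ, (rf (e k) (u, φ k *ᵥ u)).2 =
      φ (k+1) *ᵥ (rf (e k) (u, φ k *ᵥ u)).1) (k : ℕ) (hk : k ≤ n) (u : m → ℝ) :
    (chain e k (u, 0)).2 = φ k *ᵥ (chain e k (u, 0)).1 := by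
  induction k with
  | zero => simp [chain_zero, h0]
  | succ k ih =>
    have h1 := ih (by omega)
    rw [chain_succ]
    have h2 : chain e k (u, 0) = ((chain e k (u, 0)).1, φ k *ᵥ (chain e k (u, 0)).1) :=
      Prod.ext rfl h1
    rw [h2]
    exact hstep k (by omega) _

theorem phi_last {e : ℕ → (m → ℝ) × (m → ℝ)} {n : ℕ}
    (hinv : ∀ u : m → ℝ, (chain e n (u, 0)).2 = 0) (he : ∀ k < n, G (e k) (e k) = 1) :
    phi e n = 0 := by
  classical
  have h1 : ∀ w : m → ℝ, phi e n *ᵥ w = 0 := by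
    intro w
    obtain ⟨u, hu⟩ := chain_surj hinv he w
    have h2 := chain_graph (e := e) (n := n) (φ := phi e) rfl
      (fun k hk u => rf_graph (De_pos (SC_phi he k hk.le) (he k hk)).ne' u) n le_rfl u
    rw [hu] at h2
    exact h2.symm
  ext i j
  have h3 := congrFun (h1 (Pi.single j 1)) i
  simpa using h3

end

variable {m : Type*} [Fintype m] [DecidableEq m]

theorem isUnit_of_SC {ψ : Matrix m m ℝ} (h : SC ψ) : IsUnit (1 - ψᵀ * ψ) := by
  rw [← Matrix.mulVec_injective_iff_isUnit]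
  have h0 : ∀ u : m → ℝ, (1 - ψᵀ * ψ) *ᵥ u = 0 → u = 0 := by
    intro u hu
    by_contra hne
    have h1 := h u hne
    rw [Matrix.sub_mulVec, Matrix.one_mulVec, ← Matrix.mulVec_mulVec, sub_eq_zero] at hu
    have h2 : u ⬝ᵥ u = u ⬝ᵥ (ψᵀ *ᵥ (ψ *ᵥ u)) := by rw [← hu]
    rw [← dot_mulVec_comm] at h2
    linarith
  intro u v huv
  have h1 : (1 - ψᵀ * ψ) *ᵥ (u - v) = 0 := by
    rw [Matrix.mulVec_sub, sub_eq_zero]
    exact huv
  exact sub_eq_zero.1 (h0 _ h1)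

noncomputable def AA (ψ : Matrix m m ℝ) (α : m → ℝ) : m → ℝ := (1 - ψᵀ * ψ)⁻¹ *ᵥ α
noncomputable def EE (ψ : Matrix m m ℝ) (α : m → ℝ) : (m → ℝ) × (m → ℝ) := (AA ψ α, ψ *ᵥ AA ψ α)
noncomputable def NN (ψ : Matrix m m ℝ) (α : m → ℝ) : ℝ := α ⬝ᵥ AA ψ α
noncomputable def ev (ψ ψ' : Matrix m m ℝ) (α : m → ℝ) : (m → ℝ) × (m → ℝ) :=
  (1 / √(NN ψ α)) • EE ψ α + (1 / √(NN ψ' α)) • EE ψ' α
noncomputable def ee (ψ ψ' : Matrix m m ℝ) (α : m → ℝ) : (m → ℝ) × (m → ℝ) :=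
  (1 / √(G (ev ψ ψ' α) (ev ψ ψ' α))) • ev ψ ψ' α

theorem AA_spec {ψ : Matrix m m ℝ} (h : SC ψ) (α : m → ℝ) : (1 - ψᵀ * ψ) *ᵥ AA ψ α = α := by
  rw [AA, Matrix.mulVec_mulVec, Matrix.mul_nonsing_inv _
    ((Matrix.isUnit_iff_isUnit_det _).1 (isUnit_of_SC h)), Matrix.one_mulVec]

theorem G_EE {ψ : Matrix m m ℝ} (h : SC ψ) (α u : m → ℝ) : G (u, ψ *ᵥ u) (EE ψ α) = u ⬝ᵥ α := by
  rw [G, EE]
  simp only
  rw [dot_mulVec_comm, ← dotProduct_sub]
  congr 1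
  have := AA_spec h α
  rw [Matrix.sub_mulVec, Matrix.one_mulVec, ← Matrix.mulVec_mulVec] at this
  exact this

theorem AA_unique {ψ : Matrix m m ℝ} (h : SC ψ) {α A : m → ℝ}
    (hA : ∀ u : m → ℝ, G (u, ψ *ᵥ u) (A, ψ *ᵥ A) = u ⬝ᵥ α) : A = AA ψ α := by
  apply mulVec_inj (isUnit_of_SC h)
  rw [AA_spec h]
  have h1 : ∀ u : m → ℝ, u ⬝ᵥ ((1 - ψᵀ * ψ) *ᵥ A - α) = 0 := by
    intro u
    have h2 := hA u
    rw [G] at h2
    simp only at h2
    rw [dot_mulVec_comm] at h2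
    rw [dotProduct_sub, Matrix.sub_mulVec, Matrix.one_mulVec, ← Matrix.mulVec_mulVec,
      dotProduct_sub]
    linarith
  exact sub_eq_zero.1 (dotProduct_self_eq_zero.1 (h1 _))

theorem G_EE_self {ψ : Matrix m m ℝ} (h : SC ψ) (α : m → ℝ) : G (EE ψ α) (EE ψ α) = NN ψ α := by
  have := G_EE h α (AA ψ α)
  rw [NN, dotProduct_comm, ← this]
  rfl

theorem AA_ne {ψ : Matrix m m ℝ} (h : SC ψ) {α : m → ℝ} (hα : α ≠ 0) : AA ψ α ≠ 0 := by
  intro h0
  have := AA_spec h α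
  rw [h0, Matrix.mulVec_zero] at this
  exact hα this.symm

theorem NN_pos {ψ : Matrix m m ℝ} (h : SC ψ) {α : m → ℝ} (hα : α ≠ 0) : 0 < NN ψ α := by
  rw [← G_EE_self h α, G, EE]
  have := h _ (AA_ne h hα)
  simp only
  linarith

omit [DecidableEq m] in
theorem graph_eq {ψ ψ' : Matrix m m ℝ} {α ζ w : m → ℝ} (hψ : ψ' = ψ + vecMulVec ζ α)
    (hw : w ⬝ᵥ α = 0) : ψ' *ᵥ w = ψ *ᵥ w := by
  rw [hψ, Matrix.add_mulVec, Matrix.vecMulVec_mulVec, dotProduct_comm, hw]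
  simp

theorem GEE_pos {ψ ψ' : Matrix m m ℝ} (h : SC ψ) (h' : SC ψ') {α ζ : m → ℝ} (hα : α ≠ 0)
    (hψ : ψ' = ψ + vecMulVec ζ α) : 0 < G (EE ψ α) (EE ψ' α) := by
  set A := AA ψ α with hA
  set A' := AA ψ' α with hA'
  set N := NN ψ α with hN
  set N' := NN ψ' α with hN'
  have hNp : 0 < N := NN_pos h hα
  have hNp' : 0 < N' := NN_pos h' hα
  set w := A' - (N' / N) • A with hw
  have hwα : w ⬝ᵥ α = 0 := by
    rw [hw, sub_dotProduct, smul_dotProduct, smul_eq_mul]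
    have e1 : A' ⬝ᵥ α = N' := by rw [dotProduct_comm]; rfl
    have e2 : A ⬝ᵥ α = N := by rw [dotProduct_comm]; rfl
    rw [e1, e2]
    field_simp
    ring
  have hA'w : A' = (N' / N) • A + w := by rw [hw]; abel
  have h1 : ψ' *ᵥ A' = (N' / N) • (ψ' *ᵥ A) + ψ *ᵥ w := by
    conv_lhs => rw [hA'w]
    rw [Matrix.mulVec_add, Matrix.mulVec_smul, graph_eq hψ hwα]
  have h2 : G (EE ψ α) (EE ψ' α) = (N' / N) * (A ⬝ᵥ A - (ψ *ᵥ A) ⬝ᵥ (ψ' *ᵥ A)) +
      G (w, ψ *ᵥ w) (EE ψ α) := by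
    rw [EE, EE, ← hA, ← hA', h1]
    simp only [G]
    conv_lhs => rw [hA'w]
    simp only [dotProduct_add, dotProduct_smul, smul_eq_mul]
    rw [dotProduct_comm w A, dotProduct_comm (ψ *ᵥ w) (ψ *ᵥ A)]
    ring
  rw [h2, G_EE h, hwα, add_zero]
  apply mul_pos (div_pos hNp' hNp)
  have h3 := h A (AA_ne h hα)
  have h4 := h' A (AA_ne h hα)
  have h5 := dot_self_nonneg (ψ *ᵥ A - ψ' *ᵥ A)
  simp only [sub_dotProduct, dotProduct_sub] at h5
  rw [dotProduct_comm (ψ' *ᵥ A) (ψ *ᵥ A)] at h5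
  linarith

theorem Gev_eq {ψ ψ' : Matrix m m ℝ} (h : SC ψ) (h' : SC ψ') {α : m → ℝ} (hα : α ≠ 0) :
    G (ev ψ ψ' α) (ev ψ ψ' α) =
      2 + 2 * (1 / √(NN ψ α) * (1 / √(NN ψ' α)) * G (EE ψ α) (EE ψ' α)) := by
  have hNp := NN_pos h hα
  have hNp' := NN_pos h' hα
  have r1 : √(NN ψ α) * √(NN ψ α) = NN ψ α := Real.mul_self_sqrt hNp.le
  have r2 : √(NN ψ' α) * √(NN ψ' α) = NN ψ' α := Real.mul_self_sqrt hNp'.le
  have s1 : √(NN ψ α) ≠ 0 := (Real.sqrt_pos.2 hNp).ne'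
  have s2 : √(NN ψ' α) ≠ 0 := (Real.sqrt_pos.2 hNp').ne'
  rw [ev]
  simp only [G_add_left, G_add_right, G_smul_left, G_smul_right]
  rw [G_comm (EE ψ' α) (EE ψ α), G_EE_self h, G_EE_self h']
  have t1 : 1 / √(NN ψ α) * (1 / √(NN ψ α) * NN ψ α) = 1 := by
    conv_lhs => rw [← r1]
    simp only [Real.sqrt_mul_self (Real.sqrt_nonneg _)]
    field_simp
  have t2 : 1 / √(NN ψ' α) * (1 / √(NN ψ' α) * NN ψ' α) = 1 := by
    conv_lhs => rw [← r2]
    simp only [Real.sqrt_mul_self (Real.sqrt_nonneg _)]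
    field_simp
  linear_combination t1 + t2

theorem Gev_pos {ψ ψ' : Matrix m m ℝ} (h : SC ψ) (h' : SC ψ') {α ζ : m → ℝ} (hα : α ≠ 0)
    (hψ : ψ' = ψ + vecMulVec ζ α) : 0 < G (ev ψ ψ' α) (ev ψ ψ' α) := by
  rw [Gev_eq h h' hα]
  have h1 := GEE_pos h h' hα hψ
  have s1 := Real.sqrt_pos.2 (NN_pos h hα)
  have s2 := Real.sqrt_pos.2 (NN_pos h' hα)
  positivity

theorem ee_norm {ψ ψ' : Matrix m m ℝ} (h : SC ψ) (h' : SC ψ') {α ζ : m → ℝ} (hα : α ≠ 0)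
    (hψ : ψ' = ψ + vecMulVec ζ α) : G (ee ψ ψ' α) (ee ψ ψ' α) = 1 := by
  have h1 := Gev_pos h h' hα hψ
  rw [ee, G_smul_left, G_smul_right]
  set q := G (ev ψ ψ' α) (ev ψ ψ' α) with hq
  have r1 : √q * √q = q := Real.mul_self_sqrt h1.le
  have s1 : √q ≠ 0 := (Real.sqrt_pos.2 h1).ne'
  calc 1 / √q * (1 / √q * q) = 1 / √q * (1 / √q * (√q * √q)) := by rw [r1]
    _ = 1 := by field_simp

theorem ee_step {ψ ψ' : Matrix m m ℝ} (h : SC ψ) (h' : SC ψ') {α ζ : m → ℝ} (hα : α ≠ 0)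
    (hψ : ψ' = ψ + vecMulVec ζ α) (u : m → ℝ) :
    (rf (ee ψ ψ' α) (u, ψ *ᵥ u)).2 = ψ' *ᵥ (rf (ee ψ ψ' α) (u, ψ *ᵥ u)).1 := by
  have hNp := NN_pos h hα
  have hNp' := NN_pos h' hα
  have hq := Gev_pos h h' hα hψ
  have hqe := Gev_eq h h' hα
  set q := G (ev ψ ψ' α) (ev ψ ψ' α) with hqd
  set A := AA ψ α with hA
  set A' := AA ψ' α with hA'
  set N := NN ψ α with hN
  set N' := NN ψ' α with hN'
  set t := (u ⬝ᵥ α) / N with ht
  set w := u - t • A with hw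
  have hwα : w ⬝ᵥ α = 0 := by
    rw [hw, sub_dotProduct, smul_dotProduct, smul_eq_mul]
    have e2 : A ⬝ᵥ α = N := by rw [dotProduct_comm]; rfl
    rw [e2, ht]
    field_simp
    ring
  have hu : u = t • A + w := by rw [hw]; abel
  have hx : (u, ψ *ᵥ u) = t • EE ψ α + (w, ψ *ᵥ w) := by
    rw [EE, ← hA]
    apply Prod.ext
    · exact hu
    · simp only [Prod.snd_add, Prod.smul_snd]
      conv_lhs => rw [hu]
      rw [Matrix.mulVec_add, Matrix.mulVec_smul]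
  set M := G (EE ψ α) (EE ψ' α) with hM
  have r1 : √N * √N = N := Real.mul_self_sqrt hNp.le
  have s1 : √N ≠ 0 := (Real.sqrt_pos.2 hNp).ne'
  have s2 : √N' ≠ 0 := (Real.sqrt_pos.2 hNp').ne'
  -- G with ev
  have g1 : G (u, ψ *ᵥ u) (EE ψ α) = t * N := by
    rw [G_EE h, ht]; field_simp
  have g2 : G (u, ψ *ᵥ u) (EE ψ' α) = t * M := by
    rw [hx, G_add_left, G_smul_left, ← hM]
    have : G (w, ψ *ᵥ w) (EE ψ' α) = 0 := by
      rw [← graph_eq hψ hwα, G_EE h', hwα]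
    rw [this, add_zero]
  have g3 : G (u, ψ *ᵥ u) (ev ψ ψ' α) = t * √N * (q / 2) := by
    rw [ev, G_add_right, G_smul_right, G_smul_right, g1, g2, hqe]
    rw [← hN, ← hN']
    have : 1 / √N * (t * N) = t * √N := by
      conv_lhs => rw [← r1]
      simp only [Real.sqrt_mul_self (Real.sqrt_nonneg _)]
      field_simp
    rw [this]
    field_simp
  have g4 : rf (ee ψ ψ' α) (u, ψ *ᵥ u) =
      (w, ψ' *ᵥ w) - (t * √N * (1 / √N')) • EE ψ' α := by
    rw [rf_apply, ee, G_smul_right, g3, ← hqd, smul_smul]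
    have hr : √q * √q = q := Real.mul_self_sqrt hq.le
    have hs : √q ≠ 0 := (Real.sqrt_pos.2 hq).ne'
    have : 2 * (1 / √q * (t * √N * (q / 2))) * (1 / √q) = t * √N := by
      conv_lhs => rw [← hr]
      simp only [Real.sqrt_mul_self (Real.sqrt_nonneg _)]
      field_simp
    rw [this, ev, ← hN, ← hN', smul_add, smul_smul, smul_smul]
    have h5 : t * √N * (1 / √N) = t := by field_simp
    rw [h5, hx, graph_eq hψ hwα]
    abel
  rw [g4]
  clear_value w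
  simp only [Prod.snd_sub, Prod.fst_sub, Prod.smul_snd, Prod.smul_fst, EE]
  rw [Matrix.mulVec_sub, Matrix.mulVec_smul]

/-- at parameter `1` the deformed vector is the original one. -/
theorem ee_one {ψ : Matrix m m ℝ} (h : SC ψ) {e : (m → ℝ) × (m → ℝ)} (he : G e e = 1) :
    ee ψ (nx ψ e) (al ψ e) = e := by
  have hα := al_ne h he
  have h' := SC_nx h he
  have hD := De_pos h he
  set α := al ψ e with hαd
  set ψ' := nx ψ e with hψ'
  set D := De ψ e with hDd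
  set N := NN ψ α with hN
  have hNp : 0 < N := NN_pos h hα
  set p := EE ψ α with hp
  have hpe : G p e = N := by
    rw [hp, EE, G_graph, ← hαd, dotProduct_comm, hN, NN]
  have hpp : G p p = N := G_EE_self h α
  have hrp : rf e p = p - (2 * N) • e := by rw [rf_apply, hpe]
  -- the vector `D * u'`
  have hgr : (rf e p).2 = ψ' *ᵥ (rf e p).1 := by
    rw [hp, EE]
    exact rf_graph hD.ne' _
  have hEE : EE ψ' α = (-D) • rf e p := by
    have hA : (-D) • (rf e p).1 = AA ψ' α := by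
      apply AA_unique h'
      intro u'
      obtain ⟨u, hu, hud⟩ := rf_pre hD.ne' u'
      have e1 : (((-D) • (rf e p).1, ψ' *ᵥ ((-D) • (rf e p).1)) : (m → ℝ) × (m → ℝ)) =
          (-D) • rf e p := by
        apply Prod.ext
        · rfl
        · rw [Matrix.mulVec_smul, ← hgr]
          rfl
      rw [e1, ← hu, G_smul_right, rf_isom he, hp, G_EE h, ← hαd] at *
      rw [← hDd] at hud
      rw [hud]
      field_simp
    apply Prod.ext
    · exact hA.symm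
    · rw [EE]
      simp only
      rw [← hA, Matrix.mulVec_smul, ← hgr]
      rfl
  have hN' : NN ψ' α = D ^ 2 * N := by
    rw [← G_EE_self h', hEE, G_smul_left, G_smul_right, rf_isom he, hpp]
    ring
  have hsq : √(NN ψ' α) = D * √N := by
    rw [hN', Real.sqrt_mul (sq_nonneg D), Real.sqrt_sq hD.le]
  have s1 : √N ≠ 0 := (Real.sqrt_pos.2 hNp).ne'
  have r1 : √N * √N = N := Real.mul_self_sqrt hNp.le
  have hev : ev ψ ψ' α = (2 * √N) • e := by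
    rw [ev, hsq, hEE, ← hN, hrp, smul_smul, smul_sub, smul_smul]
    have e1 : 1 / (D * √N) * (-D) = - (1 / √N) := by
      field_simp
    have e2 : 1 / (D * √N) * (-D) * (2 * N) = - (2 * √N) := by
      rw [e1]
      conv_lhs => rw [← r1]
      simp only [Real.sqrt_mul_self (Real.sqrt_nonneg _)]
      field_simp
    rw [e2, e1, neg_smul, neg_smul]
    abel
  rw [ee, hev, G_smul_left, G_smul_right, he, smul_smul]
  have e3 : √(2 * √N * (2 * √N * 1)) = 2 * √N := by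
    rw [mul_one, Real.sqrt_mul_self (by positivity)]
  rw [e3]
  have e4 : 1 / (2 * √N) * (2 * √N) = 1 := by field_simp
  rw [e4, one_smul]

theorem ee_zero (α : m → ℝ) : (ee 0 0 α).2 = 0 := by
  simp [ee, ev, EE]

omit [DecidableEq m] in
theorem SC_smul {φ : Matrix m m ℝ} (h : SC φ) {s : ℝ} (hs : s ∈ Set.Icc (0:ℝ) 1) :
    SC (s • φ) := by
  intro u hu
  have h1 := h u hu
  have h2 := dot_self_nonneg (φ *ᵥ u)
  rw [Matrix.smul_mulVec, smul_dotProduct, dotProduct_smul, smul_eq_mul, smul_eq_mul]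
  have h3 : s * (s * (φ *ᵥ u ⬝ᵥ φ *ᵥ u)) ≤ 1 * (1 * (φ *ᵥ u ⬝ᵥ φ *ᵥ u)) := by
    have := hs.1
    have := hs.2
    gcongr
  linarith

theorem continuousAt_inv {A : Matrix m m ℝ} (h : IsUnit A) :
    ContinuousAt (Inv.inv : Matrix m m ℝ → Matrix m m ℝ) A := by
  apply continuousAt_matrix_inv
  have h1 : A.det ≠ 0 := ((Matrix.isUnit_iff_isUnit_det _).1 h).ne_zero
  have : (Ring.inverse : ℝ → ℝ) = Inv.inv := by
    ext x
    exact Ring.inverse_eq_inv x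
  rw [this]
  exact continuousAt_inv₀ h1

theorem continuousOn_AA {φ : Matrix m m ℝ} (h : SC φ) (α : m → ℝ) :
    ContinuousOn (fun s : ℝ => AA (s • φ) α) (Set.Icc 0 1) := by
  intro s hs
  apply ContinuousAt.continuousWithinAt
  have h1 : ContinuousAt (fun s : ℝ => (1 - (s • φ)ᵀ * (s • φ))⁻¹) s := by
    have hc : Continuous (fun s : ℝ => 1 - (s • φ)ᵀ * (s • φ)) := by
      fun_prop
    exact ContinuousAt.comp (g := Inv.inv) (f := fun s : ℝ => 1 - (s • φ)ᵀ * (s • φ))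
      (continuousAt_inv (isUnit_of_SC (SC_smul h hs))) hc.continuousAt
  have h2 : Continuous (fun B : Matrix m m ℝ => B *ᵥ α) :=
    Continuous.matrix_mulVec continuous_id continuous_const
  exact ContinuousAt.comp (g := fun B : Matrix m m ℝ => B *ᵥ α) h2.continuousAt h1

omit [DecidableEq m] in
theorem continuousOn_G {f g : ℝ → (m → ℝ) × (m → ℝ)} {I : Set ℝ} (hf : ContinuousOn f I)
    (hg : ContinuousOn g I) : ContinuousOn (fun s => G (f s) (g s)) I := by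
  have h : Continuous (fun p : ((m → ℝ) × (m → ℝ)) × ((m → ℝ) × (m → ℝ)) => G p.1 p.2) := by
    unfold G
    exact Continuous.sub (Continuous.dotProduct (by fun_prop) (by fun_prop))
      (Continuous.dotProduct (by fun_prop) (by fun_prop))
  exact h.comp_continuousOn (hf.prodMk hg)

theorem continuousOn_EE {φ : Matrix m m ℝ} (h : SC φ) (α : m → ℝ) :
    ContinuousOn (fun s : ℝ => EE (s • φ) α) (Set.Icc 0 1) := by
  have h1 := continuousOn_AA h α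
  unfold EE
  apply ContinuousOn.prodMk h1
  have h2 : Continuous (fun p : ℝ × (m → ℝ) => (p.1 • φ) *ᵥ p.2) :=
    Continuous.matrix_mulVec (by fun_prop) (by fun_prop)
  exact h2.comp_continuousOn (continuousOn_id.prodMk h1)

theorem continuousOn_NN {φ : Matrix m m ℝ} (h : SC φ) (α : m → ℝ) :
    ContinuousOn (fun s : ℝ => NN (s • φ) α) (Set.Icc 0 1) := by
  have h1 := continuousOn_AA h α
  unfold NN
  have h2 : Continuous (fun p : m → ℝ => α ⬝ᵥ p) :=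
    Continuous.dotProduct (by fun_prop) (by fun_prop)
  exact h2.comp_continuousOn h1

theorem continuousOn_ee {φ φ' : Matrix m m ℝ} (h : SC φ) (h' : SC φ') {α ζ : m → ℝ} (hα : α ≠ 0)
    (hφ : φ' = φ + vecMulVec ζ α) :
    ContinuousOn (fun s : ℝ => ee (s • φ) (s • φ') α) (Set.Icc 0 1) := by
  have hφs : ∀ s : ℝ, s • φ' = s • φ + vecMulVec (s • ζ) α := by
    intro s
    rw [hφ, smul_add]
    congr 1
    ext i j
    simp [vecMulVec_apply, mul_assoc]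
  have hev : ContinuousOn (fun s : ℝ => ev (s • φ) (s • φ') α) (Set.Icc 0 1) := by
    unfold ev
    apply ContinuousOn.add
    · apply ContinuousOn.fun_smul
      · apply ContinuousOn.div continuousOn_const
        · exact (continuousOn_NN h α).sqrt
        · intro s hs
          exact (Real.sqrt_pos.2 (NN_pos (SC_smul h hs) hα)).ne'
      · exact continuousOn_EE h α
    · apply ContinuousOn.fun_smul
      · apply ContinuousOn.div continuousOn_const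
        · exact (continuousOn_NN h' α).sqrt
        · intro s hs
          exact (Real.sqrt_pos.2 (NN_pos (SC_smul h' hs) hα)).ne'
      · exact continuousOn_EE h' α
  unfold ee
  apply ContinuousOn.fun_smul _ hev
  apply ContinuousOn.div continuousOn_const
  · exact (continuousOn_G hev hev).sqrt
  · intro s hs
    exact (Real.sqrt_pos.2 (Gev_pos (SC_smul h hs) (SC_smul h' hs) hα (hφs s))).ne'

end Pool.Agent.TConn
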