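import Pool.Agent.TConn.Density

set_option autoImplicit false

open Matrix Filter Topology

namespace Pool.Agent.TConn

theorem sumExtend_inl {ι : Type*} {V : Type*} [AddCommGroup V] [Module ℝ V] {v : ι → V}
    (hs : LinearIndependent ℝ v) (j : ι) : Module.Basis.sumExtend hs (Sum.inl j) = v j := by
  simp [Module.Basis.sumExtend]
  rfl

variable {m k : Type} [Fintype m] [DecidableEq m] [Fintype k] [DecidableEq k]

/-- extension of a full-rank rectangular matrix to an invertible one -/
theorem exists_ext (X : Matrix m k ℝ) (hX : ∀ v : k → ℝ, X *ᵥ v = 0 → v = 0) :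
    ∃ (κ : Type) (_ : Fintype κ) (_ : DecidableEq κ) (Y : Matrix m κ ℝ)
      (P' : Matrix (k ⊕ κ) m ℝ), fromCols X Y * P' = 1 ∧ P' * fromCols X Y = 1 := by
  have hinj : Function.Injective X.mulVec := by
    intro u v huv
    have : X *ᵥ (u - v) = 0 := by
      rw [Matrix.mulVec_sub, sub_eq_zero]; exact huv
    exact sub_eq_zero.1 (hX _ this)
  have hli : LinearIndependent ℝ X.col := Matrix.mulVec_injective_iff.1 hinj
  set b := Module.Basis.sumExtend hli with hb
  have hfin : Finite (k ⊕ ↑(Module.Basis.sumExtendIndex hli)) := Module.Finite.finite_basis b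
  have hfin2 : Finite ↑(Module.Basis.sumExtendIndex hli) :=
    Finite.of_injective (Sum.inr : _ → k ⊕ ↑(Module.Basis.sumExtendIndex hli)) Sum.inr_injective
  classical
  let _ : Fintype ↑(Module.Basis.sumExtendIndex hli) := Fintype.ofFinite _
  set c := Pi.basisFun ℝ m with hc
  have h1 := c.toMatrix_mul_toMatrix_flip b
  have h2 := b.toMatrix_mul_toMatrix_flip c
  have h3 : c.toMatrix b = fromCols X (Matrix.of fun i (j : ↑(Module.Basis.sumExtendIndex hli)) => b (Sum.inr j) i) := by
    ext i j
    rcases j with j | j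
    · simp only [Matrix.fromCols_apply_inl, Module.Basis.toMatrix_apply, hc, Pi.basisFun_repr]
      rw [hb, sumExtend_inl]
      rfl
    · simp only [Matrix.fromCols_apply_inr, Module.Basis.toMatrix_apply, hc, Pi.basisFun_repr,
        Matrix.of_apply]
  rw [h3] at h1 h2
  exact ⟨_, inferInstance, inferInstance, _, b.toMatrix c, h1, h2⟩

/-- the isotypic alternative for a real `M`-stable plane or line -/
theorem exists_eig {B : Matrix m m ℝ} (hB : IsUnit B) (hU : Unim B) [Nonempty m] :
    ∃ (k : Type) (_ : Fintype k) (_ : DecidableEq k) (_ : Nonempty k) (W : Matrix m k ℝ)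
      (ρ : Matrix k k ℝ), (∀ v : k → ℝ, W *ᵥ v = 0 → v = 0) ∧ ρᵀ * ρ = 1 ∧
      Bᵀ * W = B * W * ρ ∧
      ∀ A : Matrix k k ℝ, Aᵀ = A * ρ → A = 0 ∨ ∃ c : ℝ, 0 < c ∧ Aᵀ * A = c • 1 := by
  -- complex eigenvector
  obtain ⟨z, x, hx, hzx⟩ : ∃ (z : ℂ) (x : m → ℂ), x ≠ 0 ∧
      (B.map Complex.ofReal)ᵀ *ᵥ x = z • (B.map Complex.ofReal *ᵥ x) := by
    have hBc := map_isUnit hB
    have hBdet := (Matrix.isUnit_iff_isUnit_det _).1 hBc
    set M := (B.map Complex.ofReal)⁻¹ * (B.map Complex.ofReal)ᵀ with hM
    obtain ⟨z, hz⟩ := IsAlgClosed.exists_root M.charpoly (by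
      rw [Matrix.charpoly_degree_eq_dim]
      have : 0 < Fintype.card m := Fintype.card_pos
      exact_mod_cast this.ne')
    rw [Polynomial.IsRoot.def, Matrix.eval_charpoly, ← Matrix.exists_mulVec_eq_zero_iff] at hz
    obtain ⟨x, hx, hzx⟩ := hz
    refine ⟨z, x, hx, ?_⟩
    have h1 : z • x = M *ᵥ x := by
      rw [Matrix.sub_mulVec, sub_eq_zero] at hzx
      rw [← hzx]
      simp [Matrix.smul_mulVec, Matrix.scalar_apply, ← Matrix.smul_one_eq_diagonal]
    rw [← Matrix.mulVec_smul, h1, hM, Matrix.mulVec_mulVec, ← Matrix.mul_assoc,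
      Matrix.mul_nonsing_inv _ hBdet, Matrix.one_mul]
  have hz1 := hU z x hx hzx
  set a : m → ℝ := fun j => (x j).re with ha
  set b : m → ℝ := fun j => (x j).im with hb
  have e1 : ∀ (C : Matrix m m ℝ) (i : m), ((C.map Complex.ofReal) *ᵥ x) i =
      (((C *ᵥ a) i : ℝ) : ℂ) + (((C *ᵥ b) i : ℝ) : ℂ) * Complex.I := by
    intro C i
    simp only [Matrix.mulVec, dotProduct, Matrix.map_apply, ha, hb]
    push_cast
    rw [Finset.sum_mul, ← Finset.sum_add_distrib]
    apply Finset.sum_congr rfl
    intro j _
    conv_lhs => rw [← Complex.re_add_im (x j)]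
    ring
  have ra : Bᵀ *ᵥ a = z.re • (B *ᵥ a) - z.im • (B *ᵥ b) := by
    ext i
    have h1 := congrFun hzx i
    rw [← Matrix.transpose_map, e1, Pi.smul_apply, e1, smul_eq_mul] at h1
    have h2 := congrArg Complex.re h1
    simpa using h2
  have rb : Bᵀ *ᵥ b = z.im • (B *ᵥ a) + z.re • (B *ᵥ b) := by
    ext i
    have h1 := congrFun hzx i
    rw [← Matrix.transpose_map, e1, Pi.smul_apply, e1, smul_eq_mul] at h1
    have h2 := congrArg Complex.im h1
    simp at h2
    simp
    linarith
  have hab : ¬ (a = 0 ∧ b = 0) := by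
    rintro ⟨h1, h2⟩
    apply hx
    ext j
    apply Complex.ext
    · exact congrFun h1 j
    · exact congrFun h2 j
  have hcd : z.re ^ 2 + z.im ^ 2 = 1 := by
    have : ‖z‖ ^ 2 = 1 := by rw [hz1]; norm_num
    rw [← Complex.normSq_eq_norm_sq, Complex.normSq_apply] at this
    linarith
  by_cases him : z.im = 0
  · -- real eigenvalue
    have hre : z.re * z.re = 1 := by rw [him] at hcd; linarith
    obtain ⟨w, hw, hBw⟩ : ∃ w : m → ℝ, w ≠ 0 ∧ Bᵀ *ᵥ w = z.re • (B *ᵥ w) := by
      by_cases h : a = 0
      · refine ⟨b, fun h' => hab ⟨h, h'⟩, ?_⟩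
        rw [rb, him, zero_smul, zero_add]
      · refine ⟨a, h, ?_⟩
        rw [ra, him, zero_smul, sub_zero]
    refine ⟨Unit, inferInstance, inferInstance, inferInstance, Matrix.of fun i _ => w i,
      Matrix.of fun _ _ => z.re, ?_, ?_, ?_, ?_⟩
    · intro v hv
      obtain ⟨i, hi⟩ := Function.ne_iff.1 hw
      have h1 := congrFun hv i
      simp only [Matrix.mulVec, dotProduct, Matrix.of_apply, Finset.univ_unique,
        Finset.sum_singleton, Pi.zero_apply] at h1
      ext j
      exact (mul_eq_zero.1 h1).resolve_left hi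
    · ext i j
      simp [Matrix.mul_apply, hre]
    · ext i j
      have h1 := congrFun hBw i
      simp only [Matrix.mulVec, dotProduct, Pi.smul_apply, smul_eq_mul] at h1
      simp only [Matrix.mul_apply, Matrix.of_apply, Finset.univ_unique, Finset.sum_singleton]
      rw [h1]
      ring
    · intro A _
      by_cases hA : A () () = 0
      · left
        ext i j
        exact hA
      · right
        refine ⟨A () () * A () (), mul_self_pos.2 hA, ?_⟩
        ext i j
        simp [Matrix.mul_apply]
  · -- nonreal eigenvalue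
    set c := z.re with hc
    set d := z.im with hd
    refine ⟨Fin 2, inferInstance, inferInstance, inferInstance,
      Matrix.of fun i j => ![a i, b i] j, !![c, d; -d, c], ?_, ?_, ?_, ?_⟩
    · intro v hv
      have h1 : v 0 • a + v 1 • b = 0 := by
        ext i
        have := congrFun hv i
        simp [Matrix.mulVec, dotProduct, Fin.sum_univ_two] at this
        simp
        linarith
      -- apply Bᵀ
      have h2 : Bᵀ *ᵥ (v 0 • a + v 1 • b) = 0 := by rw [h1]; simp
      rw [Matrix.mulVec_add, Matrix.mulVec_smul, Matrix.mulVec_smul, ra, rb] at h2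
      have h3 : B *ᵥ (c • (v 0 • a + v 1 • b) + d • (v 1 • a - v 0 • b)) = 0 := by
        rw [← h2]
        simp only [Matrix.mulVec_add, Matrix.mulVec_smul, Matrix.mulVec_sub]
        module
      rw [h1, smul_zero, zero_add, Matrix.mulVec_smul] at h3
      have h4 : B *ᵥ (v 1 • a - v 0 • b) = B *ᵥ 0 := by
        rw [Matrix.mulVec_zero]
        exact (smul_eq_zero.1 h3).resolve_left him
      have h5 := mulVec_inj hB h4
      have h6 : (v 0 ^ 2 + v 1 ^ 2) • a = 0 := by
        have : (v 0 ^ 2 + v 1 ^ 2) • a = v 0 • (v 0 • a + v 1 • b) + v 1 • (v 1 • a - v 0 • b) := by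
          module
        rw [this, h1, h5]; simp
      have h7 : (v 0 ^ 2 + v 1 ^ 2) • b = 0 := by
        have : (v 0 ^ 2 + v 1 ^ 2) • b = v 1 • (v 0 • a + v 1 • b) - v 0 • (v 1 • a - v 0 • b) := by
          module
        rw [this, h1, h5]; simp
      have h8 : v 0 ^ 2 + v 1 ^ 2 = 0 := by
        by_contra hne
        exact hab ⟨(smul_eq_zero.1 h6).resolve_left hne, (smul_eq_zero.1 h7).resolve_left hne⟩
      have h9 : v 0 = 0 := by nlinarith [sq_nonneg (v 0), sq_nonneg (v 1)]
      have h10 : v 1 = 0 := by nlinarith [sq_nonneg (v 0), sq_nonneg (v 1)]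
      ext j
      fin_cases j
      · exact h9
      · exact h10
    · ext i j
      fin_cases i <;> fin_cases j <;> simp [Matrix.mul_apply, Fin.sum_univ_two] <;> nlinarith [hcd]
    · ext i j
      have h1 := congrFun ra i
      have h2 := congrFun rb i
      rw [Matrix.mul_assoc]
      fin_cases j
      · simp [Matrix.mul_apply, Matrix.mulVec, dotProduct, Fin.sum_univ_two] at h1 ⊢
        rw [h1, Finset.mul_sum, Finset.mul_sum, ← Finset.sum_sub_distrib]
        apply Finset.sum_congr rfl
        intro l _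
        ring
      · simp [Matrix.mul_apply, Matrix.mulVec, dotProduct, Fin.sum_univ_two] at h2 ⊢
        rw [h2, Finset.mul_sum, Finset.mul_sum, ← Finset.sum_add_distrib]
        apply Finset.sum_congr rfl
        intro l _
        ring
    · intro A hA
      have e00 := congrFun (congrFun hA 0) 0
      have e01 := congrFun (congrFun hA 0) 1
      have e10 := congrFun (congrFun hA 1) 0
      have e11 := congrFun (congrFun hA 1) 1
      simp [Matrix.mul_apply, Fin.sum_univ_two] at e00 e01 e10 e11
      have hc1 : 1 - c ≠ 0 := by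
        intro h
        have : c = 1 := by linarith
        rw [this] at hcd
        apply him
        nlinarith
      -- A 1 1 = A 0 0, A 1 0 = - A 0 1
      have g1 : A 1 1 = A 0 0 := by
        have : (1 - c) * A 1 1 = (1 - c) * A 0 0 := by
          linear_combination e11 + d * e01 + c * e00 + A 0 0 * hcd
        exact mul_left_cancel₀ hc1 this
      have g2 : A 1 0 = - A 0 1 := by
        have : d * A 1 0 = d * (- A 0 1) := by
          linear_combination -e11 + (1 - c) * g1 + e00
        exact mul_left_cancel₀ him this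
      by_cases hA0 : A 0 0 ^ 2 + A 0 1 ^ 2 = 0
      · left
        have k1 : A 0 0 = 0 := by nlinarith [sq_nonneg (A 0 0), sq_nonneg (A 0 1)]
        have k2 : A 0 1 = 0 := by nlinarith [sq_nonneg (A 0 0), sq_nonneg (A 0 1)]
        ext i j
        fin_cases i <;> fin_cases j <;> simp [g1, g2, k1, k2]
      · right
        refine ⟨A 0 0 ^ 2 + A 0 1 ^ 2, ?_, ?_⟩
        · have h1 := sq_nonneg (A 0 0)
          have h2 := sq_nonneg (A 0 1)
          rcases (add_nonneg h1 h2).lt_or_eq with h | h
          · exact h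
          · exact absurd h.symm hA0
        · ext i j
          fin_cases i <;> fin_cases j <;> simp [Matrix.mul_apply, Fin.sum_univ_two, g1, g2] <;> ring

end Pool.Agent.TConn
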