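import Pool.Agent.TConn.Form3
import Pool.Agent.TConn.Eig

set_option autoImplicit false

open Matrix Filter Topology

namespace Pool.Agent.TConn

section split

variable {k κ : Type} [Fintype k] [DecidableEq k] [Fintype κ] [DecidableEq κ]

theorem ell_of_scaled {A : Matrix k k ℝ} {c : ℝ} (hc : 0 < c) (hA : Aᵀ * A = c • 1) : Ell A := by
  have s1 : 0 < √c := Real.sqrt_pos.2 hc
  have s2 : 0 < √(√c) := Real.sqrt_pos.2 s1
  have r1 : √c * √c = c := Real.mul_self_sqrt hc.le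
  have r2 : √(√c) * √(√c) = √c := Real.mul_self_sqrt s1.le
  refine ⟨√(√c) • 1, (1 / √c) • A, ?_, ?_, ?_⟩
  · refine IsUnit.of_mul_eq_one ((√(√c))⁻¹ • 1) ?_
    rw [Matrix.smul_mul, Matrix.mul_smul, smul_smul, mul_inv_cancel₀ s2.ne', one_smul,
      Matrix.one_mul]
  · rw [Matrix.transpose_smul, Matrix.smul_mul, Matrix.mul_smul, hA, smul_smul, smul_smul]
    have : 1 / √c * (1 / √c * c) = 1 := by
      conv_lhs => rw [← r1]
      simp only [Real.sqrt_mul_self (Real.sqrt_nonneg _)]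
      field_simp
    rw [← mul_assoc] at this
    rw [this, one_smul]
  · rw [Matrix.transpose_smul, Matrix.transpose_one, Matrix.smul_mul, Matrix.mul_smul,
      Matrix.mul_one, Matrix.one_mul, smul_smul, smul_smul]
    have : √(√c) * √(√c) * (1 / √c) = 1 := by
      rw [r2]; field_simp
    rw [this, one_smul]

theorem Ell.blocks {A : Matrix k k ℝ} {C : Matrix κ κ ℝ} (hA : Ell A) (hC : Ell C) :
    Ell (fromBlocks A 0 0 C) := by
  obtain ⟨P, O, hP, hO, rfl⟩ := hA
  obtain ⟨Q, R, hQ, hR, rfl⟩ := hC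
  have hPdet := (Matrix.isUnit_iff_isUnit_det _).1 hP
  have hQdet := (Matrix.isUnit_iff_isUnit_det _).1 hQ
  refine ⟨fromBlocks P 0 0 Q, fromBlocks O 0 0 R, ?_, ?_, ?_⟩
  · refine IsUnit.of_mul_eq_one (fromBlocks P⁻¹ 0 0 Q⁻¹) ?_
    simp [Matrix.fromBlocks_multiply, Matrix.mul_nonsing_inv _ hPdet,
      Matrix.mul_nonsing_inv _ hQdet]
  · simp [Matrix.fromBlocks_multiply, Matrix.fromBlocks_transpose, hO, hR]
  · simp [Matrix.fromBlocks_multiply, Matrix.fromBlocks_transpose]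

theorem split_unit {A : Matrix k k ℝ} {C : Matrix κ κ ℝ} (h : IsUnit (fromBlocks A 0 0 C)) :
    IsUnit C := by
  rw [Matrix.isUnit_iff_isUnit_det, Matrix.det_fromBlocks_zero₂₁] at h
  rw [Matrix.isUnit_iff_isUnit_det]
  exact isUnit_of_mul_isUnit_right h

omit [DecidableEq k] [DecidableEq κ] in
theorem split_unim {A : Matrix k k ℝ} {C : Matrix κ κ ℝ} (h : Unim (fromBlocks A 0 0 C)) :
    Unim C := by
  intro z x hx hzx
  apply h z (Sum.elim 0 x)
  · intro h0
    apply hx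
    ext j
    exact congrFun h0 (Sum.inr j)
  · ext i
    rcases i with i | i
    · simp [Matrix.mulVec, dotProduct, Fintype.sum_sum_type]
    · have h1 := congrFun hzx i
      simp only [Matrix.mulVec, dotProduct, Pi.smul_apply,
        Matrix.transpose_apply, Matrix.map_apply, smul_eq_mul] at h1
      simp [Matrix.mulVec, dotProduct, Fintype.sum_sum_type]
      exact h1

/-- Case A: the stable subspace is nondegenerate. -/
theorem caseA {A ρ : Matrix k k ℝ} {X : Matrix k κ ℝ} {Y : Matrix κ k ℝ} {Z : Matrix κ κ ℝ}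
    {c : ℝ} (hc : 0 < c) (hA : Aᵀ * A = c • 1) (hAρ : Aᵀ = A * ρ) (hXY : Xᵀ = Y * ρ)
    (hρ : ρᵀ * ρ = 1)
    (hB : IsUnit (fromBlocks A X Y Z)) (hU : Unim (fromBlocks A X Y Z))
    (ih : ∀ C : Matrix κ κ ℝ, IsUnit C → Unim C → C ∈ closure {B : Matrix κ κ ℝ | Ell B}) :
    fromBlocks A X Y Z ∈ closure {B : Matrix (k ⊕ κ) (k ⊕ κ) ℝ | Ell B} := by
  have hρ' : ρ * ρᵀ = 1 := mul_eq_one_comm.1 hρ
  set A' : Matrix k k ℝ := c⁻¹ • Aᵀ with hA'
  have a1 : A' * A = 1 := by
    rw [hA', Matrix.smul_mul, hA, smul_smul, inv_mul_cancel₀ hc.ne', one_smul]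
  have a2 : A * A' = 1 := mul_eq_one_comm.1 a1
  have a3 : ρ * A'ᵀ = A' := by
    -- A'ᵀ Aᵀ = 1, Aᵀ = A ρ
    have h1 : A'ᵀ * Aᵀ = 1 := by rw [← Matrix.transpose_mul, a2, Matrix.transpose_one]
    have h2 : Aᵀ * A'ᵀ = 1 := mul_eq_one_comm.1 h1
    rw [hAρ] at h2
    calc ρ * A'ᵀ = (A' * A) * (ρ * A'ᵀ) := by rw [a1, Matrix.one_mul]
      _ = A' * (A * ρ * A'ᵀ) := by simp only [Matrix.mul_assoc]
      _ = A' := by rw [h2, Matrix.mul_one]
  set P : Matrix (k ⊕ κ) (k ⊕ κ) ℝ := fromBlocks 1 (-(A' * X)) 0 1 with hP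
  set P' : Matrix (k ⊕ κ) (k ⊕ κ) ℝ := fromBlocks 1 (A' * X) 0 1 with hP'
  have h1 : P * P' = 1 := by
    rw [hP, hP', Matrix.fromBlocks_multiply]
    simp
  have h2 : P' * P = 1 := mul_eq_one_comm.1 h1
  have hform : Pᵀ * fromBlocks A X Y Z * P = fromBlocks A 0 0 (Z - Y * A' * X) := by
    rw [hP, Matrix.fromBlocks_transpose, Matrix.fromBlocks_multiply, Matrix.fromBlocks_multiply]
    have e1 : (-(A' * X))ᵀ * A + Y = 0 := by
      rw [Matrix.transpose_neg, Matrix.transpose_mul, hXY, Matrix.mul_assoc Y, a3, Matrix.neg_mul,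
        Matrix.mul_assoc Y, a1, Matrix.mul_one, neg_add_cancel]
    have e2 : A * -(A' * X) + X = 0 := by
      rw [Matrix.mul_neg, ← Matrix.mul_assoc, a2, Matrix.one_mul, neg_add_cancel]
    simp only [Matrix.transpose_one, Matrix.transpose_zero, Matrix.one_mul, Matrix.mul_one,
      Matrix.zero_mul, Matrix.mul_zero, add_zero, zero_add]
    congr 1
    · rw [e1, Matrix.zero_mul, zero_add, Matrix.transpose_neg, Matrix.transpose_mul, hXY,
        Matrix.mul_assoc Y, a3, Matrix.neg_mul]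
      abel
  have hB' := isUnit_congr hB h1 h2
  have hU' := unim_congr hU h1 h2
  rw [hform] at hB' hU'
  apply clos_congr h1 h2
  rw [hform]
  have hC := ih _ (split_unit hB') (split_unim hU')
  have hcont : Continuous (fun C : Matrix κ κ ℝ => fromBlocks A 0 0 C) :=
    Continuous.matrix_fromBlocks continuous_const continuous_const continuous_const continuous_id
  exact map_mem_closure hcont hC (fun C hC => (ell_of_scaled hc hA).blocks hC)

/-- Case B: the stable subspace is isotropic. -/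
theorem caseB {ρ : Matrix k k ℝ} {X : Matrix k κ ℝ} {Y : Matrix κ k ℝ} {Z : Matrix κ κ ℝ}
    (hXY : Xᵀ = Y * ρ) (hρ : ρᵀ * ρ = 1)
    (hB : IsUnit (fromBlocks 0 X Y Z)) (hU : Unim (fromBlocks 0 X Y Z))
    (ih : ∀ (κ' : Type) [Fintype κ'] [DecidableEq κ'], Fintype.card κ' ≤ Fintype.card κ →
      ∀ C : Matrix κ' κ' ℝ, IsUnit C → Unim C → C ∈ closure {B : Matrix κ' κ' ℝ | Ell B}) :
    fromBlocks 0 X Y Z ∈ closure {B : Matrix (k ⊕ κ) (k ⊕ κ) ℝ | Ell B} := by
  have hρ' : ρ * ρᵀ = 1 := mul_eq_one_comm.1 hρ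
  have hY : Y = Xᵀ * ρᵀ := by rw [hXY, Matrix.mul_assoc, hρ', Matrix.mul_one]
  have hXinj : ∀ v : k → ℝ, Xᵀ *ᵥ v = 0 → v = 0 := by
    intro v hv
    have hBt : IsUnit (fromBlocks 0 X Y Z)ᵀ := by
      rw [Matrix.isUnit_iff_isUnit_det, Matrix.det_transpose, ← Matrix.isUnit_iff_isUnit_det]
      exact hB
    have h1 : (fromBlocks 0 X Y Z)ᵀ *ᵥ (Sum.elim v 0) = (fromBlocks 0 X Y Z)ᵀ *ᵥ 0 := by
      rw [Matrix.fromBlocks_transpose, Matrix.fromBlocks_mulVec]
      ext i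
      rcases i with i | i <;> simp [hv]
    have h2 := mulVec_inj hBt h1
    ext j
    exact congrFun h2 (Sum.inl j)
  obtain ⟨κ', _, _, R₂, R', hR1, hR2⟩ := exists_ext Xᵀ hXinj
  -- the congruence
  set Q : Matrix κ (k ⊕ κ') ℝ := R'ᵀ with hQ
  set Q' : Matrix (k ⊕ κ') κ ℝ := (fromCols Xᵀ R₂)ᵀ with hQ'
  have q1 : Q * Q' = 1 := by rw [hQ, hQ', ← Matrix.transpose_mul, hR1, Matrix.transpose_one]
  have q2 : Q' * Q = 1 := by rw [hQ, hQ', ← Matrix.transpose_mul, hR2, Matrix.transpose_one]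
  have hXQ : X * Q = fromCols 1 0 := by
    have h1 : R' * Xᵀ = fromRows 1 0 := by
      ext i j
      have h2 : (R' * Xᵀ) i j = (R' * fromCols Xᵀ R₂) i (Sum.inl j) := by
        rw [Matrix.mul_apply, Matrix.mul_apply]
        rfl
      rw [h2, hR2]
      rcases i with i | i <;> simp [Matrix.one_apply]
    have h3 : X * Q = (R' * Xᵀ)ᵀ := by rw [hQ, Matrix.transpose_mul, Matrix.transpose_transpose]
    rw [h3, h1, Matrix.transpose_fromRows]
    simp
  have hQY : Qᵀ * Y = fromRows ρᵀ 0 := by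
    rw [hY, ← Matrix.mul_assoc, ← Matrix.transpose_mul, hXQ, Matrix.transpose_fromCols,
      Matrix.fromRows_mul]
    simp
  set Z₁ := Qᵀ * Z * Q with hZ₁
  set K := Z₁.toBlocks₁₁ with hK
  set β := Z₁.toBlocks₁₂ with hβ
  set γ := Z₁.toBlocks₂₁ with hγ
  set C := Z₁.toBlocks₂₂ with hC
  have hZb : Z₁ = fromBlocks K β γ C := (Matrix.fromBlocks_toBlocks Z₁).symm
  set T : Matrix (k ⊕ κ) (k ⊕ (k ⊕ κ')) ℝ := fromBlocks 1 0 0 Q with hT
  set T' : Matrix (k ⊕ (k ⊕ κ')) (k ⊕ κ) ℝ := fromBlocks 1 0 0 Q' with hT'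
  have t1 : T * T' = 1 := by
    rw [hT, hT', Matrix.fromBlocks_multiply]
    simp [q1]
  have t2 : T' * T = 1 := by
    rw [hT, hT', Matrix.fromBlocks_multiply]
    simp [q2]
  have hform1 : Tᵀ * fromBlocks 0 X Y Z * T =
      fromBlocks 0 (fromCols 1 0) (fromRows ρᵀ 0) (fromBlocks K β γ C) := by
    rw [hT, Matrix.fromBlocks_transpose, Matrix.fromBlocks_multiply, Matrix.fromBlocks_multiply,
      ← hZb, ← hXQ, ← hQY, hZ₁]
    simp
  have hB1 := isUnit_congr hB t1 t2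
  have hU1 := unim_congr hU t1 t2
  rw [hform1] at hB1 hU1
  apply clos_congr t1 t2
  rw [hform1]
  -- second congruence
  set h : Matrix k κ' ℝ := -(ρ * β) with hh
  set H : Matrix k (k ⊕ κ') ℝ := fromCols 0 h with hH
  set V : Matrix (k ⊕ (k ⊕ κ')) (k ⊕ (k ⊕ κ')) ℝ := fromBlocks 1 H 0 1 with hV
  set V' : Matrix (k ⊕ (k ⊕ κ')) (k ⊕ (k ⊕ κ')) ℝ := fromBlocks 1 (-H) 0 1 with hV'
  have v1 : V * V' = 1 := by
    rw [hV, hV', Matrix.fromBlocks_multiply]
    simp
  have v2 : V' * V = 1 := mul_eq_one_comm.1 v1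
  have hform2 : Vᵀ * fromBlocks 0 (fromCols 1 0) (fromRows ρᵀ 0) (fromBlocks K β γ C) * V =
      form3 ρ K (γ + hᵀ) C := by
    rw [hV, Matrix.fromBlocks_transpose, Matrix.fromBlocks_multiply, Matrix.fromBlocks_multiply,
      form3]
    simp only [Matrix.transpose_one, Matrix.transpose_zero, Matrix.one_mul, Matrix.mul_one,
      Matrix.zero_mul, Matrix.mul_zero, add_zero, zero_add]
    congr 1
    rw [hH, Matrix.transpose_fromCols, Matrix.fromRows_mul_fromCols, Matrix.fromRows_mul_fromCols,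
      Matrix.fromBlocks_add, Matrix.fromBlocks_add]
    have e1 : ρᵀ * h + β = 0 := by
      rw [hh, Matrix.mul_neg, ← Matrix.mul_assoc, hρ, Matrix.one_mul, neg_add_cancel]
    simp only [Matrix.transpose_zero, Matrix.zero_mul, Matrix.mul_zero, add_zero, zero_add,
      Matrix.mul_one]
    rw [e1]
    congr 1
    abel
  have hB2 := isUnit_congr hB1 v1 v2
  have hU2 := unim_congr hU1 v1 v2
  rw [hform2] at hB2 hU2
  apply clos_congr v1 v2
  rw [hform2]
  apply form3_clos hρ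
  apply ih κ' _ C (form3_unit hB2) (form3_unim hρ hU2)
  have hcard := Matrix.square_of_invertible Q Q' q1 q2
  rw [Fintype.card_sum] at hcard
  omega

end split

/-- Density of the elliptic forms. -/
theorem density : ∀ (N : ℕ) (m : Type) [Fintype m] [DecidableEq m] (B : Matrix m m ℝ),
    Fintype.card m = N → IsUnit B → Unim B → B ∈ closure {B : Matrix m m ℝ | Ell B} := by
  intro N
  induction N using Nat.strong_induction_on with
  | _ N ihN =>
    intro m _ _ B hcard hB hU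
    rcases isEmpty_or_nonempty m with hm | hm
    · apply subset_closure
      refine ⟨1, 1, isUnit_one, by simp, ?_⟩
      ext i
      exact (hm.false i).elim
    · obtain ⟨k, _, _, _, W, ρ, hW, hρ, hBW, hA⟩ := exists_eig hB hU
      obtain ⟨κ, _, _, Y₀, P', h1, h2⟩ := exists_ext W hW
      have hcard2 := Matrix.square_of_invertible (fromCols W Y₀) P' h1 h2
      rw [Fintype.card_sum, hcard] at hcard2
      have hkpos : 0 < Fintype.card k := Fintype.card_pos
      have hform : (fromCols W Y₀)ᵀ * B * fromCols W Y₀ =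
          fromBlocks (Wᵀ * B * W) (Wᵀ * B * Y₀) (Y₀ᵀ * B * W) (Y₀ᵀ * B * Y₀) := by
        rw [Matrix.transpose_fromCols, Matrix.fromRows_mul, Matrix.fromRows_mul_fromCols]
      have hB' := isUnit_congr hB h1 h2
      have hU' := unim_congr hU h1 h2
      rw [hform] at hB' hU'
      apply clos_congr h1 h2
      rw [hform]
      have rel1 : (Wᵀ * B * W)ᵀ = (Wᵀ * B * W) * ρ := by
        rw [Matrix.transpose_mul, Matrix.transpose_mul, Matrix.transpose_transpose, hBW]
        simp only [Matrix.mul_assoc]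
      have rel2 : (Wᵀ * B * Y₀)ᵀ = (Y₀ᵀ * B * W) * ρ := by
        rw [Matrix.transpose_mul, Matrix.transpose_mul, Matrix.transpose_transpose, hBW]
        simp only [Matrix.mul_assoc]
      rcases hA _ rel1 with h0 | ⟨c, hc, hAc⟩
      · rw [h0] at hB' hU' ⊢
        apply caseB rel2 hρ hB' hU'
        intro κ' _ _ hκ' C hC hCU
        exact ihN (Fintype.card κ') (by omega) κ' C rfl hC hCU
      · apply caseA hc hAc rel1 rel2 hρ hB' hU'
        intro C hC hCU
        exact ihN (Fintype.card κ) (by omega) κ C rfl hC hCU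

end Pool.Agent.TConn
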