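import Pool.Agent.TConn.Cayley

set_option autoImplicit false

open Matrix Filter Topology

namespace Pool.Agent.TConn

section congr

variable {m m' : Type} [Fintype m] [DecidableEq m] [Fintype m'] [DecidableEq m']

/-- invariance of elliptic forms under (rectangular) congruence -/
theorem Ell.congr {C : Matrix m' m' ℝ} (h : Ell C) {P : Matrix m m' ℝ} {P' : Matrix m' m ℝ}
    (h1 : P * P' = 1) (h2 : P' * P = 1) : Ell (P'ᵀ * C * P') := by
  obtain ⟨Q, O, hQ, hO, hC⟩ := h
  have hcard : Fintype.card m = Fintype.card m' := Matrix.square_of_invertible P P' h1 h2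
  let e : m ≃ m' := Fintype.equivOfCardEq hcard
  have hQdet : IsUnit Q.det := (Matrix.isUnit_iff_isUnit_det _).1 hQ
  refine ⟨(Q * P').submatrix e id, O.submatrix e e, ?_, ?_, ?_⟩
  · refine IsUnit.of_mul_eq_one ((P * Q⁻¹).submatrix id e) ?_
    rw [← Matrix.submatrix_mul _ _ _ _ _ Function.bijective_id]
    have h3 : Q * P' * (P * Q⁻¹) = 1 := by
      calc Q * P' * (P * Q⁻¹) = Q * (P' * P) * Q⁻¹ := by simp only [Matrix.mul_assoc]
        _ = 1 := by rw [h2, Matrix.mul_one, Matrix.mul_nonsing_inv _ hQdet]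
    rw [h3]
    simp
  · rw [Matrix.transpose_submatrix, Matrix.submatrix_mul_equiv, hO]
    simp
  · rw [Matrix.transpose_submatrix, Matrix.submatrix_mul_equiv, Matrix.submatrix_mul_equiv, hC]
    simp [Matrix.mul_assoc]

theorem clos_congr {B : Matrix m m ℝ} {P : Matrix m m' ℝ} {P' : Matrix m' m ℝ}
    (h1 : P * P' = 1) (h2 : P' * P = 1)
    (h : Pᵀ * B * P ∈ closure {C : Matrix m' m' ℝ | Ell C}) :
    B ∈ closure {C : Matrix m m ℝ | Ell C} := by
  have hc : Continuous (fun C : Matrix m' m' ℝ => P'ᵀ * C * P') := by fun_prop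
  have h3 := map_mem_closure (t := {C : Matrix m m ℝ | Ell C}) hc h
    (fun C hC => Ell.congr hC h1 h2)
  have h4 : P'ᵀ * (Pᵀ * B * P) * P' = B := by
    calc P'ᵀ * (Pᵀ * B * P) * P' = (P * P')ᵀ * B * (P * P') := by
          simp only [Matrix.transpose_mul, Matrix.mul_assoc]
      _ = B := by rw [h1]; simp
  rwa [h4] at h3

theorem isUnit_congr {B : Matrix m m ℝ} (hB : IsUnit B) {P : Matrix m m' ℝ} {P' : Matrix m' m ℝ}
    (h1 : P * P' = 1) (h2 : P' * P = 1) : IsUnit (Pᵀ * B * P) := by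
  have hBdet : IsUnit B.det := (Matrix.isUnit_iff_isUnit_det _).1 hB
  refine IsUnit.of_mul_eq_one (P' * B⁻¹ * P'ᵀ) ?_
  calc Pᵀ * B * P * (P' * B⁻¹ * P'ᵀ) = Pᵀ * (B * (P * P') * B⁻¹) * P'ᵀ := by
        simp only [Matrix.mul_assoc]
    _ = (P' * P)ᵀ := by
        rw [h1, Matrix.mul_one, Matrix.mul_nonsing_inv _ hBdet, Matrix.mul_one,
          Matrix.transpose_mul]
    _ = 1 := by rw [h2, Matrix.transpose_one]

theorem unim_congr {B : Matrix m m ℝ} (hB : Unim B) {P : Matrix m m' ℝ} {P' : Matrix m' m ℝ}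
    (h1 : P * P' = 1) (h2 : P' * P = 1) : Unim (Pᵀ * B * P) := by
  intro z x hx hzx
  have g1 : P.map Complex.ofReal * P'.map Complex.ofReal = 1 := by
    rw [← map_mul', h1]
    exact Matrix.map_one _ Complex.ofReal_zero Complex.ofReal_one
  have g2 : P'.map Complex.ofReal * P.map Complex.ofReal = 1 := by
    rw [← map_mul', h2]
    exact Matrix.map_one _ Complex.ofReal_zero Complex.ofReal_one
  apply hB z (P.map Complex.ofReal *ᵥ x)
  · intro h0
    apply hx
    have : (P'.map Complex.ofReal) *ᵥ (P.map Complex.ofReal *ᵥ x) = 0 := by rw [h0]; simp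
    rwa [Matrix.mulVec_mulVec, g2, Matrix.one_mulVec] at this
  · have g3 : (P'.map Complex.ofReal)ᵀ * (P.map Complex.ofReal)ᵀ = 1 := by
      rw [← Matrix.transpose_mul, g1, Matrix.transpose_one]
    have e1 : (P'.map Complex.ofReal)ᵀ * ((Pᵀ * B * P).map Complex.ofReal)ᵀ =
        (B.map Complex.ofReal)ᵀ * P.map Complex.ofReal := by
      rw [map_mul', map_mul', Matrix.transpose_mul, Matrix.transpose_mul, ← Matrix.mul_assoc, g3,
        Matrix.one_mul]
      rfl
    have e2 : (P'.map Complex.ofReal)ᵀ * ((Pᵀ * B * P).map Complex.ofReal) =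
        (B.map Complex.ofReal) * P.map Complex.ofReal := by
      have : (Pᵀ).map Complex.ofReal = (P.map Complex.ofReal)ᵀ := rfl
      rw [map_mul', map_mul', this, Matrix.mul_assoc, ← Matrix.mul_assoc, g3,
        Matrix.one_mul]
    have h3 := congrArg (fun v => (P'.map Complex.ofReal)ᵀ *ᵥ v) hzx
    simp only [Matrix.mulVec_smul, Matrix.mulVec_mulVec] at h3
    rw [e1, e2] at h3
    rw [Matrix.mulVec_mulVec, Matrix.mulVec_mulVec]
    exact h3

end congr

end Pool.Agent.TConn
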