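import Pool.Agent.TConn.Density

set_option autoImplicit false

open Matrix Filter Topology

open scoped ComplexOrder

namespace Pool.Agent.TConn

variable {k κ : Type} [Fintype k] [DecidableEq k] [Fintype κ] [DecidableEq κ]

/-- block normal form with an isotropic stable subspace -/
def form3 (ρ K : Matrix k k ℝ) (γ : Matrix κ k ℝ) (C : Matrix κ κ ℝ) :
    Matrix (k ⊕ (k ⊕ κ)) (k ⊕ (k ⊕ κ)) ℝ :=
  fromBlocks 0 (fromCols 1 0) (fromRows ρᵀ 0) (fromBlocks K 0 γ C)

theorem form3_unit {ρ K : Matrix k k ℝ} {γ : Matrix κ k ℝ} {C : Matrix κ κ ℝ}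
    (h : IsUnit (form3 ρ K γ C)) : IsUnit C := by
  rw [← Matrix.mulVec_injective_iff_isUnit]
  intro x y hxy
  have h1 : form3 ρ K γ C *ᵥ (Sum.elim 0 (Sum.elim 0 x)) =
      form3 ρ K γ C *ᵥ (Sum.elim 0 (Sum.elim 0 y)) := by
    simp only [form3, Matrix.fromBlocks_mulVec, Matrix.fromCols_mulVec]
    have : C *ᵥ x = C *ᵥ y := hxy
    simp [this]
  have h2 := mulVec_inj h h1
  ext j
  exact congrFun h2 (Sum.inr (Sum.inr j))

omit [DecidableEq κ] in
theorem form3_unim {ρ K : Matrix k k ℝ} {γ : Matrix κ k ℝ} {C : Matrix κ κ ℝ}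
    (hρ : ρᵀ * ρ = 1) (h : Unim (form3 ρ K γ C)) : Unim C := by
  intro z x hx hzx
  by_contra hz
  set ρc : Matrix k k ℂ := (ρ.map Complex.ofReal)ᵀ with hρc
  have hρρ : ρcᴴ * ρc = 1 := by
    have h1 : ρ * ρᵀ = 1 := mul_eq_one_comm.1 hρ
    have h2 : ρcᴴ = ρ.map Complex.ofReal := by
      ext i j
      simp [hρc]
    have h3 : ρc = (ρᵀ).map Complex.ofReal := rfl
    rw [h2, h3, ← map_mul', h1]
    exact Matrix.map_one _ Complex.ofReal_zero Complex.ofReal_one
  have hunit : IsUnit (1 - z • ρc) := by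
    rw [← Matrix.mulVec_injective_iff_isUnit]
    have h0 : ∀ v : k → ℂ, (1 - z • ρc) *ᵥ v = 0 → v = 0 := by
      intro v hv
      rw [Matrix.sub_mulVec, Matrix.one_mulVec, Matrix.smul_mulVec, sub_eq_zero] at hv
      have h1 : star v ⬝ᵥ v = (‖z‖ ^ 2 : ℝ) * (star v ⬝ᵥ v) := by
        have h2 : star (ρc *ᵥ v) ⬝ᵥ (ρc *ᵥ v) = star v ⬝ᵥ v := by
          rw [Matrix.star_mulVec, Matrix.dotProduct_mulVec, Matrix.vecMul_vecMul, hρρ,
            Matrix.vecMul_one]
        calc star v ⬝ᵥ v = star (z • ρc *ᵥ v) ⬝ᵥ (z • ρc *ᵥ v) := by rw [← hv]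
          _ = (star z * z) * (star (ρc *ᵥ v) ⬝ᵥ (ρc *ᵥ v)) := by
              rw [star_smul, smul_dotProduct, dotProduct_smul, smul_eq_mul, smul_eq_mul, mul_assoc]
          _ = _ := by
              rw [h2]
              congr 1
              rw [Complex.star_def, ← Complex.normSq_eq_conj_mul_self, Complex.normSq_eq_norm_sq]
      have h3 : star v ⬝ᵥ v = 0 := by
        by_contra hne
        have h4 : ((‖z‖ ^ 2 : ℝ) : ℂ) = 1 := by
          have := mul_right_cancel₀ hne ((one_mul _).trans h1)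
          exact this.symm
        have h5 : ‖z‖ ^ 2 = 1 := by exact_mod_cast h4
        apply hz
        have := norm_nonneg z
        nlinarith
      have h6 : v ⬝ᵥ star v = 0 := (dotProduct_comm v (star v)).trans h3
      have h7 := dotProduct_star_self_eq_zero (v := v)
      tauto
    intro u v huv
    have h1 : (1 - z • ρc) *ᵥ (u - v) = 0 := by
      rw [Matrix.mulVec_sub, sub_eq_zero]
      exact huv
    exact sub_eq_zero.1 (h0 _ h1)
  have hdet := (Matrix.isUnit_iff_isUnit_det _).1 hunit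
  set w : k → ℂ := (1 - z • ρc)⁻¹ *ᵥ (-((γ.map Complex.ofReal)ᵀ *ᵥ x)) with hw
  have hwe : w + (γ.map Complex.ofReal)ᵀ *ᵥ x = z • (ρc *ᵥ w) := by
    have h1 : (1 - z • ρc) *ᵥ w = -((γ.map Complex.ofReal)ᵀ *ᵥ x) := by
      rw [hw, Matrix.mulVec_mulVec, Matrix.mul_nonsing_inv _ hdet, Matrix.one_mulVec]
    rw [Matrix.sub_mulVec, Matrix.one_mulVec, Matrix.smul_mulVec] at h1
    have h2 : w = z • (ρc *ᵥ w) + -((γ.map Complex.ofReal)ᵀ *ᵥ x) := by
      rw [← h1]; abel
    conv_lhs => rw [h2]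
    abel
  apply hz
  apply h z (Sum.elim w (Sum.elim 0 x))
  · intro h0
    apply hx
    ext j
    exact congrFun h0 (Sum.inr (Sum.inr j))
  · ext i
    rcases i with i | i | i
    · simp [form3, Matrix.mulVec, dotProduct, Fintype.sum_sum_type]
    · have h1 := congrFun hwe i
      simp only [Matrix.mulVec, dotProduct, Pi.add_apply, Pi.smul_apply, hρc,
        Matrix.transpose_apply, Matrix.map_apply, smul_eq_mul] at h1
      simp [form3, Matrix.mulVec, dotProduct, Fintype.sum_sum_type, Matrix.one_apply]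
      rw [← h1]
      congr 1
      rw [Finset.sum_eq_single i]
      · simp
      · intro b _ hb
        simp [hb]
      · intro hb
        exact absurd (Finset.mem_univ i) hb
    · have h1 := congrFun hzx i
      simp only [Matrix.mulVec, dotProduct, Pi.smul_apply,
        Matrix.transpose_apply, Matrix.map_apply, smul_eq_mul] at h1
      simp [form3, Matrix.mulVec, dotProduct, Fintype.sum_sum_type]
      exact h1

theorem form3_clos_orth {ρ K : Matrix k k ℝ} {γ : Matrix κ k ℝ} {O : Matrix κ κ ℝ}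
    (hρ : ρᵀ * ρ = 1) (hO : Oᵀ * O = 1) :
    form3 ρ K γ O ∈ closure {B : Matrix (k ⊕ (k ⊕ κ)) (k ⊕ (k ⊕ κ)) ℝ | Ell B} := by
  have hρ' : ρ * ρᵀ = 1 := mul_eq_one_comm.1 hρ
  have hO' : O * Oᵀ = 1 := mul_eq_one_comm.1 hO
  set B₀ := form3 ρ 0 (0 : Matrix κ k ℝ) O with hB₀
  set ν : Matrix (k ⊕ (k ⊕ κ)) (k ⊕ (k ⊕ κ)) ℝ :=
    fromBlocks 0 (fromCols (ρ * K) 0) 0 (fromBlocks 0 0 (Oᵀ * γ) 0) with hν
  have key : form3 ρ K γ O = B₀ + B₀ * ν := by
    rw [hB₀, hν, form3, form3, Matrix.fromBlocks_multiply, Matrix.fromBlocks_add]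
    congr 1
    · simp
    · simp [Matrix.fromCols_mul_fromBlocks]
    · simp
    · rw [Matrix.fromRows_mul_fromCols, Matrix.fromBlocks_multiply, Matrix.fromBlocks_add,
        Matrix.fromBlocks_add, ← Matrix.mul_assoc ρᵀ, ← Matrix.mul_assoc O, hρ, hO']
      simp
  rw [key]
  apply cayley_approx (d := Sum.elim (fun _ => -1) (Sum.elim (fun _ => 1) (fun _ => 0)))
  · rw [hB₀, form3, Matrix.fromBlocks_transpose, Matrix.fromBlocks_multiply,
      Matrix.transpose_fromCols, Matrix.transpose_fromRows]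
    rw [← Matrix.fromBlocks_one]
    congr 1
    · simp [Matrix.fromCols_mul_fromRows, hρ']
    · simp [Matrix.fromCols_mul_fromBlocks]
    · simp [Matrix.fromBlocks_transpose, Matrix.fromBlocks_mul_fromRows]
    · simp [Matrix.fromBlocks_transpose, Matrix.fromBlocks_multiply, hO]
      ext i j
      rcases i with i | i <;> rcases j with j | j <;> simp [Matrix.one_apply]
  · intro i j hij
    rcases i with i | i | i <;> rcases j with j | j | j <;>
      simp [hB₀, form3] at hij ⊢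
  · intro i j hij
    rcases i with i | i | i <;> rcases j with j | j | j <;>
      simp [hν] at hij ⊢
  · rw [hν, Matrix.fromBlocks_multiply]
    simp [Matrix.fromCols_mul_fromBlocks, Matrix.fromBlocks_multiply]

theorem form3_clos_ell {ρ K : Matrix k k ℝ} {γ : Matrix κ k ℝ} {C : Matrix κ κ ℝ}
    (hρ : ρᵀ * ρ = 1) (hC : Ell C) :
    form3 ρ K γ C ∈ closure {B : Matrix (k ⊕ (k ⊕ κ)) (k ⊕ (k ⊕ κ)) ℝ | Ell B} := by
  obtain ⟨P, O, hP, hO, rfl⟩ := hC
  have hPdet := (Matrix.isUnit_iff_isUnit_det _).1 hP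
  have e1 := Matrix.mul_nonsing_inv _ hPdet
  have e2 := Matrix.nonsing_inv_mul _ hPdet
  have e3 : P⁻¹ᵀ * Pᵀ = 1 := by rw [← Matrix.transpose_mul, e1, Matrix.transpose_one]
  apply clos_congr
    (P := fromBlocks (1 : Matrix k k ℝ) 0 0 (fromBlocks (1 : Matrix k k ℝ) 0 0 P⁻¹))
    (P' := fromBlocks (1 : Matrix k k ℝ) 0 0 (fromBlocks (1 : Matrix k k ℝ) 0 0 P))
  · simp [Matrix.fromBlocks_multiply, e2, Matrix.fromBlocks_one]
  · simp [Matrix.fromBlocks_multiply, e1, Matrix.fromBlocks_one]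
  · have h1 : (fromBlocks (1 : Matrix k k ℝ) 0 0 (fromBlocks (1 : Matrix k k ℝ) 0 0 P⁻¹))ᵀ *
        form3 ρ K γ (Pᵀ * O * P) * fromBlocks (1 : Matrix k k ℝ) 0 0
        (fromBlocks (1 : Matrix k k ℝ) 0 0 P⁻¹) = form3 ρ K (P⁻¹ᵀ * γ) O := by
      rw [form3, form3, Matrix.fromBlocks_transpose, Matrix.fromBlocks_multiply,
        Matrix.fromBlocks_multiply]
      congr 1
      · simp
      · simp [Matrix.fromCols_mul_fromBlocks]
      · simp only [Matrix.fromBlocks_transpose, Matrix.fromBlocks_mul_fromRows]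
        simp
      · simp only [Matrix.fromBlocks_transpose, Matrix.transpose_zero, Matrix.transpose_one,
          Matrix.zero_mul, Matrix.mul_zero, zero_add, add_zero, Matrix.fromBlocks_multiply,
          Matrix.one_mul, Matrix.mul_one]
        congr 1
        calc P⁻¹ᵀ * (Pᵀ * O * P) * P⁻¹ = (P⁻¹ᵀ * Pᵀ) * O * (P * P⁻¹) := by
              simp only [Matrix.mul_assoc]
          _ = O := by rw [e1, e3, Matrix.one_mul, Matrix.mul_one]
    rw [h1]
    exact form3_clos_orth hρ hO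

theorem form3_clos {ρ K : Matrix k k ℝ} {γ : Matrix κ k ℝ} {C : Matrix κ κ ℝ}
    (hρ : ρᵀ * ρ = 1) (hC : C ∈ closure {B : Matrix κ κ ℝ | Ell B}) :
    form3 ρ K γ C ∈ closure {B : Matrix (k ⊕ (k ⊕ κ)) (k ⊕ (k ⊕ κ)) ℝ | Ell B} := by
  have hc : Continuous (fun C : Matrix κ κ ℝ => form3 ρ K γ C) := by
    unfold form3
    exact Continuous.matrix_fromBlocks continuous_const continuous_const continuous_const
      (Continuous.matrix_fromBlocks continuous_const continuous_const continuous_const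
        continuous_id)
  have h1 := map_mem_closure (t := closure {B : Matrix (k ⊕ (k ⊕ κ)) (k ⊕ (k ⊕ κ)) ℝ | Ell B})
    hc hC (fun C hC => form3_clos_ell hρ hC)
  rwa [closure_closure] at h1

end Pool.Agent.TConn
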