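import Pool.Agent.TConn.Basic

set_option autoImplicit false

open Matrix

namespace Pool.Agent.TConn

variable {m : Type*} [Fintype m]

/-- The indefinite form on `ℝ^m × ℝ^m`. -/
def G (p q : (m → ℝ) × (m → ℝ)) : ℝ := p.1 ⬝ᵥ q.1 - p.2 ⬝ᵥ q.2

theorem G_comm (p q : (m → ℝ) × (m → ℝ)) : G p q = G q p := by
  simp [G, dotProduct_comm]

theorem G_add_left (p q r : (m → ℝ) × (m → ℝ)) : G (p + q) r = G p r + G q r := by
  simp [G]; ring

theorem G_add_right (p q r : (m → ℝ) × (m → ℝ)) : G r (p + q) = G r p + G r q := by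
  simp [G]; ring

theorem G_sub_left (p q r : (m → ℝ) × (m → ℝ)) : G (p - q) r = G p r - G q r := by
  simp [G]; ring

theorem G_sub_right (p q r : (m → ℝ) × (m → ℝ)) : G r (p - q) = G r p - G r q := by
  simp [G]; ring

theorem G_smul_left (c : ℝ) (p r : (m → ℝ) × (m → ℝ)) : G (c • p) r = c * G p r := by
  simp [G]; ring

theorem G_smul_right (c : ℝ) (p r : (m → ℝ) × (m → ℝ)) : G r (c • p) = c * G r p := by
  simp [G]; ring

theorem G_neg_left (p r : (m → ℝ) × (m → ℝ)) : G (-p) r = - G p r := by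
  simp [G]; ring

theorem G_neg_right (p r : (m → ℝ) × (m → ℝ)) : G r (-p) = - G r p := by
  simp [G]; ring

theorem G_zero_left (r : (m → ℝ) × (m → ℝ)) : G 0 r = 0 := by
  simp [G]

theorem G_sum_left {ι : Type*} (s : Finset ι) (f : ι → (m → ℝ) × (m → ℝ))
    (r : (m → ℝ) × (m → ℝ)) : G (∑ i ∈ s, f i) r = ∑ i ∈ s, G (f i) r := by
  classical
  induction s using Finset.induction_on with
  | empty => simp [G_zero_left]
  | insert a s ha ih => rw [Finset.sum_insert ha, Finset.sum_insert ha, G_add_left, ih]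

/-- The `G`-reflection in `e`. -/
def rf (e : (m → ℝ) × (m → ℝ)) : ((m → ℝ) × (m → ℝ)) →ₗ[ℝ] ((m → ℝ) × (m → ℝ)) where
  toFun x := x - (2 * G x e) • e
  map_add' x y := by rw [G_add_left, mul_add, add_smul]; abel
  map_smul' c x := by
    rw [G_smul_left, RingHom.id_apply, smul_sub, smul_smul]
    congr 2
    ring

theorem rf_apply (e x : (m → ℝ) × (m → ℝ)) : rf e x = x - (2 * G x e) • e := rfl

theorem rf_isom {e : (m → ℝ) × (m → ℝ)} (he : G e e = 1) (x y : (m → ℝ) × (m → ℝ)) :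
    G (rf e x) (rf e y) = G x y := by
  simp only [rf_apply, G_sub_left, G_sub_right, G_smul_left, G_smul_right, he]
  rw [G_comm e y]
  ring

theorem rf_rf {e : (m → ℝ) × (m → ℝ)} (he : G e e = 1) (x : (m → ℝ) × (m → ℝ)) :
    rf e (rf e x) = x := by
  rw [rf_apply, rf_apply, G_sub_left, G_smul_left, he]
  have : (2 * (G x e - 2 * G x e * 1)) = - (2 * G x e) := by ring
  rw [this, neg_smul]
  abel

/-- Partial products of reflections. -/
def chain (e : ℕ → (m → ℝ) × (m → ℝ)) : ℕ → ((m → ℝ) × (m → ℝ)) →ₗ[ℝ] ((m → ℝ) × (m → ℝ))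
  | 0 => LinearMap.id
  | (k+1) => rf (e k) ∘ₗ chain e k

theorem chain_zero (e : ℕ → (m → ℝ) × (m → ℝ)) (x : (m → ℝ) × (m → ℝ)) : chain e 0 x = x := rfl

theorem chain_succ (e : ℕ → (m → ℝ) × (m → ℝ)) (k : ℕ) (x : (m → ℝ) × (m → ℝ)) :
    chain e (k+1) x = rf (e k) (chain e k x) := rfl

theorem chain_isom {e : ℕ → (m → ℝ) × (m → ℝ)} {n : ℕ} (he : ∀ k < n, G (e k) (e k) = 1)
    (x y : (m → ℝ) × (m → ℝ)) : G (chain e n x) (chain e n y) = G x y := by
  induction n with
  | zero => rfl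
  | succ n ih =>
    rw [chain_succ, chain_succ, rf_isom (he n (Nat.lt_succ_self n))]
    exact ih fun k hk => he k (Nat.lt_succ_of_lt hk)

theorem chain_inj {e : ℕ → (m → ℝ) × (m → ℝ)} {n : ℕ} (he : ∀ k < n, G (e k) (e k) = 1) :
    Function.Injective (chain e n) := by
  induction n with
  | zero => exact fun _ _ h => h
  | succ n ih =>
    intro x y hxy
    rw [chain_succ, chain_succ] at hxy
    have h2 := congrArg (rf (e n)) hxy
    rw [rf_rf (he n (Nat.lt_succ_self n)), rf_rf (he n (Nat.lt_succ_self n))] at h2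
    exact ih (fun k hk => he k (Nat.lt_succ_of_lt hk)) h2

theorem chain_surj {e : ℕ → (m → ℝ) × (m → ℝ)} {n : ℕ}
    (hinv : ∀ u : m → ℝ, (chain e n (u, 0)).2 = 0) (he : ∀ k < n, G (e k) (e k) = 1)
    (w : m → ℝ) : ∃ u : m → ℝ, chain e n (u, 0) = (w, 0) := by
  let f : (m → ℝ) →ₗ[ℝ] (m → ℝ) :=
    (LinearMap.fst ℝ (m → ℝ) (m → ℝ)) ∘ₗ (chain e n) ∘ₗ (LinearMap.inl ℝ (m → ℝ) (m → ℝ))
  have hf : ∀ u, f u = (chain e n (u, 0)).1 := fun u => rfl
  have hinj : Function.Injective f := by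
    intro u v huv
    have h1 : chain e n (u, 0) = chain e n (v, 0) := by
      apply Prod.ext
      · rw [← hf, ← hf, huv]
      · rw [hinv, hinv]
    have h2 := chain_inj he h1
    exact (Prod.mk.inj h2).1
  have hsurj : Function.Surjective f := LinearMap.injective_iff_surjective.1 hinj
  obtain ⟨u, hu⟩ := hsurj w
  refine ⟨u, ?_⟩
  apply Prod.ext
  · rw [← hf, hu]
  · rw [hinv]

theorem chain_block {e : ℕ → (m → ℝ) × (m → ℝ)} {n : ℕ}
    (hinv : ∀ u : m → ℝ, (chain e n (u, 0)).2 = 0) (he : ∀ k < n, G (e k) (e k) = 1)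
    (p : (m → ℝ) × (m → ℝ)) :
    (chain e n p).1 ⬝ᵥ (chain e n p).1 = p.1 ⬝ᵥ p.1 ∧
    (chain e n p).2 ⬝ᵥ (chain e n p).2 = p.2 ⬝ᵥ p.2 := by
  have h0 : (chain e n (0, p.2)).1 = 0 := by
    have h1 : ∀ w : m → ℝ, (chain e n (0, p.2)).1 ⬝ᵥ w = 0 := by
      intro w
      obtain ⟨u, hu⟩ := chain_surj hinv he w
      have h2 := chain_isom he (0, p.2) (u, 0)
      rw [hu] at h2
      simpa [G] using h2
    exact dotProduct_self_eq_zero.1 (h1 _)
  have hp : p = (p.1, 0) + (0, p.2) := by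
    apply Prod.ext <;> simp
  have hc : chain e n p = chain e n (p.1, 0) + chain e n (0, p.2) := by
    conv_lhs => rw [hp]
    rw [map_add]
  have a1 := chain_isom he (p.1, 0) (p.1, 0)
  have a2 := chain_isom he (0, p.2) (0, p.2)
  simp only [G, h0, hinv] at a1 a2
  rw [hc]
  constructor
  · simp only [Prod.fst_add, h0, add_zero]
    simpa using a1
  · simp only [Prod.snd_add, hinv, zero_add]
    simpa using a2

/-- The basic cyclic computation. -/
theorem key_chain {n : ℕ} {S : Matrix (Fin n) (Fin n) ℝ} (hS : Uni S)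
    {e : ℕ → (m → ℝ) × (m → ℝ)} (he : ∀ k < n, G (e k) (e k) = 1)
    (hSe : ∀ i j : Fin n, i < j → S i j = 2 * G (e i) (e j))
    {x x' : Fin n → ℝ} (hx : Sᵀ *ᵥ x = S *ᵥ x') (k : ℕ) (hk : k ≤ n) :
    chain e k (∑ j : Fin n, x' j • e j) =
      ∑ j : Fin n, (if k ≤ (j : ℕ) then x' j else - x j) • e j ∧
    ∀ h : k < n, 2 * G (chain e k (∑ j : Fin n, x' j • e j)) (e k) = x' ⟨k, h⟩ + x ⟨k, h⟩ := by
  have hval : ∀ k (h : k < n), 2 * G (∑ j : Fin n, (if k ≤ (j : ℕ) then x' j else - x j) • e j) (e k)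
      = x' ⟨k, h⟩ + x ⟨k, h⟩ := by
    intro k h
    rw [G_sum_left, Finset.mul_sum]
    have h1 : ∀ j : Fin n, 2 * G ((if k ≤ (j : ℕ) then x' j else - x j) • e j) (e k) =
        S ⟨k, h⟩ j * x' j - S j ⟨k, h⟩ * x j +
          (if j = ⟨k, h⟩ then x' ⟨k, h⟩ + x ⟨k, h⟩ else 0) := by
      intro j
      rw [G_smul_left]
      rcases lt_trichotomy j ⟨k, h⟩ with hj | hj | hj
      · have hj' : (j : ℕ) < k := hj
        rw [if_neg (by omega), if_neg hj.ne, hS.1 _ _ hj, hSe j ⟨k, h⟩ hj]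
        simp only
        ring
      · subst hj
        rw [if_pos le_rfl, if_pos rfl, hS.2]
        simp only
        rw [he k h]
        ring
      · have hj' : k < (j : ℕ) := hj
        rw [if_pos (by omega), if_neg hj.ne', hS.1 _ _ hj, hSe ⟨k, h⟩ j hj]
        simp only
        rw [G_comm (e k)]
        ring
    rw [Finset.sum_congr rfl (fun j _ => h1 j), Finset.sum_add_distrib, Finset.sum_sub_distrib,
      Finset.sum_ite_eq' Finset.univ, if_pos (Finset.mem_univ _)]
    have h2 := congrFun hx ⟨k, h⟩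
    simp only [Matrix.mulVec, dotProduct, Matrix.transpose_apply] at h2
    rw [h2]
    ring
  induction k with
  | zero =>
    have h1 : chain e 0 (∑ j : Fin n, x' j • e j) =
      ∑ j : Fin n, (if 0 ≤ (j : ℕ) then x' j else - x j) • e j := by
      simp [chain_zero]
    refine ⟨h1, fun h => ?_⟩
    rw [h1]
    exact hval 0 h
  | succ k ih =>
    obtain ⟨ih1, ih2⟩ := ih (by omega)
    have h1 : chain e (k+1) (∑ j : Fin n, x' j • e j) =
      ∑ j : Fin n, (if k + 1 ≤ (j : ℕ) then x' j else - x j) • e j := by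
      rw [chain_succ, rf_apply, ih2 (by omega), ih1, sub_eq_iff_eq_add]
      have h3 : (x' ⟨k, by omega⟩ + x ⟨k, by omega⟩) • e k =
          ∑ j : Fin n, (if j = ⟨k, by omega⟩ then (x' j + x j) • e j else 0) := by
        rw [Finset.sum_ite_eq' Finset.univ, if_pos (Finset.mem_univ _)]
      rw [h3, ← Finset.sum_add_distrib]
      apply Finset.sum_congr rfl
      intro j _
      by_cases hj : j = ⟨k, by omega⟩
      · subst hj
        rw [if_pos le_rfl, if_neg (by simp), if_pos rfl, ← add_smul]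
        congr 1
        ring
      · have hj' : (j : ℕ) ≠ k := fun h => hj (Fin.ext h)
        rw [if_neg hj, add_zero]
        congr 1
        by_cases h4 : k ≤ (j : ℕ)
        · rw [if_pos h4, if_pos (by omega)]
        · rw [if_neg h4, if_neg (by omega)]
    refine ⟨h1, fun h => ?_⟩
    rw [h1]
    exact hval (k+1) h

theorem cd_of_neg {ι : Type*} {c d : ℝ} {x y : ι → ℝ} (hxy : x ≠ 0 ∨ y ≠ 0)
    (f1 : ∀ j, - x j = c * x j - d * y j) (f2 : ∀ j, - y j = d * x j + c * y j) :
    c ^ 2 + d ^ 2 = 1 := by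
  have hne : ∃ j, x j ≠ 0 ∨ y j ≠ 0 := by
    by_contra hcon
    push Not at hcon
    rcases hxy with h | h
    · exact h (funext fun j => (hcon j).1)
    · exact h (funext fun j => (hcon j).2)
  obtain ⟨j, hj⟩ := hne
  have g1 := f1 j
  have g2 := f2 j
  have hpos : 0 < x j ^ 2 + y j ^ 2 := by
    rcases hj with h | h
    · have := sq_nonneg (y j); positivity
    · have := sq_nonneg (x j); positivity
  have e1 : (1 + c) * x j = d * y j := by linarith
  have e2 : (1 + c) * y j = - d * x j := by linarith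
  have e3 : (1+c) * (x j ^ 2 + y j ^ 2) = 0 := by
    have : (1+c) * (x j ^ 2 + y j ^ 2) = ((1 + c) * x j) * x j + ((1 + c) * y j) * y j := by ring
    rw [this, e1, e2]; ring
  have e4 : d * (x j ^ 2 + y j ^ 2) = 0 := by
    have : d * (x j ^ 2 + y j ^ 2) = (d * y j) * y j - (- d * x j) * x j := by ring
    rw [this, ← e1, ← e2]; ring
  have hc : 1 + c = 0 := by
    rcases mul_eq_zero.1 e3 with h | h
    · exact h
    · exact absurd h hpos.ne'
  have hd : d = 0 := by
    rcases mul_eq_zero.1 e4 with h | h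
    · exact h
    · exact absurd h hpos.ne'
  have : c = -1 := by linarith
  rw [this, hd]
  norm_num

theorem sum_smul_comb {n : ℕ} (e : ℕ → (m → ℝ) × (m → ℝ)) (a b : ℝ) (x y : Fin n → ℝ) :
    ∑ j : Fin n, (a • x + b • y) j • e j =
      a • ∑ j : Fin n, x j • e j + b • ∑ j : Fin n, y j • e j := by
  rw [Finset.smul_sum, Finset.smul_sum, ← Finset.sum_add_distrib]
  apply Finset.sum_congr rfl
  intro j _
  simp only [Pi.add_apply, Pi.smul_apply, smul_eq_mul, add_smul, smul_smul]

/-- Membership lemma. -/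
theorem unim_of_chain {n : ℕ} {S : Matrix (Fin n) (Fin n) ℝ} (hS : Uni S)
    {e : ℕ → (m → ℝ) × (m → ℝ)} (he : ∀ k < n, G (e k) (e k) = 1)
    (hSe : ∀ i j : Fin n, i < j → S i j = 2 * G (e i) (e j))
    (hinv : ∀ u : m → ℝ, (chain e n (u, 0)).2 = 0) : Unim S := by
  apply unim_of_real
  intro c d x y hxy h1 h2
  have k1 := key_chain hS he hSe h1
  have k2 := key_chain hS he hSe h2
  set yR := ∑ j : Fin n, x j • e j with hyR
  set yI := ∑ j : Fin n, y j • e j with hyI
  have s1 : ∑ j : Fin n, (c • x - d • y) j • e j = c • yR - d • yI := by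
    have := sum_smul_comb e c (-d) x y
    rw [neg_smul, ← sub_eq_add_neg] at this
    rw [this, neg_smul, ← sub_eq_add_neg]
  have s2 : ∑ j : Fin n, (d • x + c • y) j • e j = d • yR + c • yI := sum_smul_comb e d c x y
  rw [s1] at k1
  rw [s2] at k2
  have t1 : chain e n (c • yR - d • yI) = - yR := by
    rw [(k1 n le_rfl).1, hyR, ← Finset.sum_neg_distrib]
    apply Finset.sum_congr rfl
    intro j _
    rw [if_neg (by omega), neg_smul]
  have t2 : chain e n (d • yR + c • yI) = - yI := by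
    rw [(k2 n le_rfl).1, hyI, ← Finset.sum_neg_distrib]
    apply Finset.sum_congr rfl
    intro j _
    rw [if_neg (by omega), neg_smul]
  have b1 := chain_block hinv he (c • yR - d • yI)
  have b2 := chain_block hinv he (d • yR + c • yI)
  rw [t1] at b1
  rw [t2] at b2
  by_cases hzero : yR = 0 ∧ yI = 0
  · -- all Y_k vanish
    have g1 : ∀ j : Fin n, - x j = c * x j - d * y j := by
      intro j
      have h := (k1 j j.2.le).2 j.2
      rw [hzero.1, hzero.2] at h
      simp only [smul_zero, sub_zero, map_zero, G_zero_left, mul_zero, Fin.eta, Pi.sub_apply,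
        Pi.smul_apply, smul_eq_mul] at h
      linarith
    have g2 : ∀ j : Fin n, - y j = d * x j + c * y j := by
      intro j
      have h := (k2 j j.2.le).2 j.2
      rw [hzero.1, hzero.2] at h
      simp only [smul_zero, add_zero, map_zero, G_zero_left, mul_zero, Fin.eta, Pi.add_apply,
        Pi.smul_apply, smul_eq_mul] at h
      linarith
    exact cd_of_neg hxy g1 g2
  · simp only [Prod.fst_neg, Prod.snd_neg, Prod.fst_sub, Prod.snd_sub, Prod.fst_add, Prod.snd_add,
      Prod.smul_fst, Prod.smul_snd, neg_dotProduct_neg] at b1 b2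
    obtain ⟨b11, b12⟩ := b1
    obtain ⟨b21, b22⟩ := b2
    simp only [sub_dotProduct, dotProduct_sub, add_dotProduct, dotProduct_add, smul_dotProduct,
      dotProduct_smul, smul_eq_mul] at b11 b12 b21 b22
    rw [dotProduct_comm yI.1 yR.1] at b11 b21
    rw [dotProduct_comm yI.2 yR.2] at b12 b22
    have c1 : (c ^ 2 + d ^ 2 - 1) * (yR.1 ⬝ᵥ yR.1 + yI.1 ⬝ᵥ yI.1) = 0 := by
      linear_combination -b11 - b21
    have c2 : (c ^ 2 + d ^ 2 - 1) * (yR.2 ⬝ᵥ yR.2 + yI.2 ⬝ᵥ yI.2) = 0 := by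
      linear_combination -b12 - b22
    by_contra hcd
    have hcd' : c ^ 2 + d ^ 2 - 1 ≠ 0 := fun h => hcd (by linarith)
    have d1 := (mul_eq_zero.1 c1).resolve_left hcd'
    have d2 := (mul_eq_zero.1 c2).resolve_left hcd'
    have nn : ∀ v : m → ℝ, 0 ≤ v ⬝ᵥ v := fun v => by
      rw [dotProduct]
      exact Finset.sum_nonneg fun i _ => mul_self_nonneg _
    apply hzero
    constructor
    · apply Prod.ext
      · exact dotProduct_self_eq_zero.1 (by have := nn yR.1; have := nn yI.1; linarith)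
      · exact dotProduct_self_eq_zero.1 (by have := nn yR.2; have := nn yI.2; linarith)
    · apply Prod.ext
      · exact dotProduct_self_eq_zero.1 (by have := nn yR.1; have := nn yI.1; linarith)
      · exact dotProduct_self_eq_zero.1 (by have := nn yR.2; have := nn yI.2; linarith)

end Pool.Agent.TConn
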